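import Pool.Agent.R559.Achieve

set_option autoImplicit false

/-!
# The achievement set of the sequence `(6, 5, 4) / 8 ^ k`
-/

namespace Pool.Agent.R559.Ach654

open Pool.Agent.R559.Achieve Finset

/-- The sequence `6, 5, 4, 6/8, 5/8, 4/8, 6/64, …` -/
noncomputable def x (n : ℕ) : ℝ := (6 - ((n % 3 : ℕ) : ℝ)) / 8 ^ (n / 3)

theorem x_shift (n k : ℕ) : x (n + 3 * k) = x n / 8 ^ k := by
  unfold x
  rw [Nat.add_mul_mod_self_left, Nat.add_mul_div_left _ _ (by norm_num), pow_add, div_div]

theorem x_pos (n : ℕ) : 0 < x n := by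
  unfold x
  have h : n % 3 < 3 := Nat.mod_lt _ (by norm_num)
  have h' : ((n % 3 : ℕ) : ℝ) < 3 := by exact_mod_cast h
  apply div_pos (by linarith) (by positivity)

theorem x0 : x 0 = 6 := by simp [x]
theorem x1 : x 1 = 5 := by norm_num [x]
theorem x2 : x 2 = 4 := by norm_num [x]

theorem x_antitone : Antitone x := by
  apply antitone_nat_of_succ_le
  intro n
  obtain ⟨k, r, hr, rfl⟩ : ∃ k r, r < 3 ∧ n = r + 3 * k :=
    ⟨n / 3, n % 3, Nat.mod_lt _ (by norm_num), by omega⟩
  have hp : (0 : ℝ) < 8 ^ k := by positivity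
  interval_cases r
  · rw [show 0 + 3 * k + 1 = 1 + 3 * k by ring, x_shift, x_shift, x0, x1]
    gcongr
    norm_num
  · rw [show 1 + 3 * k + 1 = 2 + 3 * k by ring, x_shift, x_shift, x2, x1]
    gcongr
    norm_num
  · rw [show 2 + 3 * k + 1 = 0 + 3 * (k + 1) by ring, x_shift, x_shift, x2, x0, pow_succ,
      ← div_div, div_right_comm]
    gcongr
    norm_num

theorem x_summable : Summable x := by
  refine Summable.of_nonneg_of_le (fun n => (x_pos n).le) (fun n => ?_)
    ((summable_geometric_of_lt_one (r := (1 / 2 : ℝ)) (by norm_num) (by norm_num)).mul_left 24)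
  unfold x
  have h1 : (2 : ℝ) ^ n ≤ 4 * 8 ^ (n / 3) := by
    have : (8 : ℝ) ^ (n / 3) = 2 ^ (3 * (n / 3)) := by
      rw [pow_mul]; norm_num
    rw [this, show (4 : ℝ) = 2 ^ 2 by norm_num, ← pow_add]
    exact pow_le_pow_right₀ (by norm_num) (by omega)
  have h2 : (0 : ℝ) ≤ ((n % 3 : ℕ) : ℝ) := by positivity
  have h3 : (0 : ℝ) < 8 ^ (n / 3) := by positivity
  have h4 : (0 : ℝ) < 2 ^ n := by positivity
  rw [one_div, inv_pow, ← div_eq_mul_inv, div_le_div_iff₀ h3 h4]
  nlinarith

theorem tsum_x : ∑' n, x n = 120 / 7 := by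
  have h := x_summable.sum_add_tsum_nat_add 3
  have h1 : ∑' n, x (n + 3) = (∑' n, x n) / 8 := by
    rw [← tsum_div_const]
    refine tsum_congr fun n => ?_
    have := x_shift n 1
    simpa using this
  rw [h1] at h
  simp only [Finset.sum_range_succ, Finset.sum_range_zero, x0, x1, x2] at h
  linarith

theorem tsum_tail (k : ℕ) : ∑' n, x (n + 3 * k) = 120 / 7 / 8 ^ k := by
  rw [← tsum_x, ← tsum_div_const]
  exact tsum_congr fun n => x_shift n k

theorem fun_shift (k : ℕ) : (fun n => x (n + 3 * k)) = fun n => x n / 8 ^ k :=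
  funext fun n => x_shift n k

theorem E_le {f : ℕ → ℝ} (hpos : ∀ n, 0 < f n) (hf : Summable f) (s : ℝ) (hs : s ∈ E f) :
    s ≤ ∑' n, f n := by
  have := gE_nonneg hpos _ (gE_symm hf s hs)
  linarith

theorem E_scale (k : ℕ) (u : ℝ) (hu : u ∈ E x) : u / 8 ^ k ∈ E (fun n => x (n + 3 * k)) := by
  obtain ⟨A, rfl⟩ := hu
  refine ⟨A, ?_⟩
  rw [fun_shift, ← tsum_div_const]
  refine tsum_congr fun n => ?_
  by_cases h : n ∈ A <;> simp [h]

/-- there are points arbitrarily close to `0` which are not sums -/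
theorem not_mem (k : ℕ) : (3 : ℝ) / 8 ^ k ∉ E x := by
  intro h
  have hp : (0 : ℝ) < 8 ^ k := by positivity
  obtain ⟨F, hF, e, he, heq⟩ := gE_dec x_summable (3 * (k + 1)) _ h
  have hsm : Summable (fun n => x (n + 3 * (k + 1))) :=
    (summable_nat_add_iff (3 * (k + 1))).2 x_summable
  have he0 : 0 ≤ e := gE_nonneg (fun n => x_pos _) e he
  rcases F.eq_empty_or_nonempty with hE | ⟨i, hi⟩
  · subst hE
    have he1 : e ≤ 120 / 7 / 8 ^ (k + 1) := by
      rw [← tsum_tail]
      exact E_le (fun n => x_pos _) hsm e he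
    rw [Finset.sum_empty, zero_add] at heq
    rw [← heq, pow_succ, ← div_div, div_right_comm] at he1
    have : (3 : ℝ) ≤ 120 / 7 / 8 := by
      by_contra hcon
      push Not at hcon
      exact absurd he1 (not_le.2 ((div_lt_div_iff_of_pos_right hp).2 hcon))
    norm_num at this
  · have h1 : x i ≤ ∑ j ∈ F, x j :=
      Finset.single_le_sum (fun j _ => (x_pos j).le) hi
    have h2 : i < 3 * (k + 1) := Finset.mem_range.1 (hF hi)
    have h3 : x (2 + 3 * k) ≤ x i := x_antitone (by omega)
    rw [x_shift, x2] at h3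
    have h4 : (4 : ℝ) / 8 ^ k ≤ 3 / 8 ^ k := by linarith
    have h5 : (3 : ℝ) / 8 ^ k < 4 / 8 ^ k := (div_lt_div_iff_of_pos_right hp).2 (by norm_num)
    linarith

theorem H : ∀ δ > 0, ∃ w, 0 < w ∧ w < δ ∧ w ∉ E x := by
  intro δ hδ
  obtain ⟨k, hk⟩ := exists_pow_lt_of_lt_one (show 0 < δ / 3 by positivity)
    (show (1 / 8 : ℝ) < 1 by norm_num)
  refine ⟨3 / 8 ^ k, by positivity, ?_, not_mem k⟩
  rw [one_div, inv_pow] at hk
  rw [div_eq_mul_inv]
  linarith

/-! ### An interval inside the achievement set -/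

/-- left ends -/
def L : ℕ → ℕ
  | 0 => 4
  | n + 1 => 8 * L n + 8

/-- right ends -/
def U : ℕ → ℕ
  | 0 => 6
  | n + 1 => 8 * U n + 7

theorem L_eq (n : ℕ) : 7 * L n + 8 = 36 * 8 ^ n := by
  induction n with
  | zero => simp [L]
  | succ n ih => rw [L, pow_succ]; omega

theorem U_eq (n : ℕ) : U n + 1 = 7 * 8 ^ n := by
  induction n with
  | zero => simp [U]
  | succ n ih => rw [U, pow_succ]; omega

theorem digits : ∀ r < 8, ∃ G ∈ (Finset.range 3).powerset, ∃ d ∈ ({r, r + 8} : Finset ℕ),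
    ∑ i ∈ G, (6 - i) = d := by decide

theorem expand (n : ℕ) : ∀ m : ℕ, L n ≤ m → m ≤ U n →
    ∃ F : Finset ℕ, F ⊆ Finset.range (3 * (n + 1)) ∧ ∑ i ∈ F, x i = (m : ℝ) / 8 ^ n := by
  induction n with
  | zero =>
    intro m h1 h2
    simp only [L, U] at h1 h2
    interval_cases m
    · exact ⟨{2}, by simp, by simp [x2]⟩
    · exact ⟨{1}, by simp, by simp [x1]⟩
    · exact ⟨{0}, by simp, by simp [x0]⟩
  | succ n ih =>
    intro m h1 h2
    rw [L] at h1
    rw [U] at h2
    obtain ⟨G, hG, d, hd, hsum⟩ := digits (m % 8) (Nat.mod_lt _ (by norm_num))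
    rw [Finset.mem_powerset] at hG
    rw [Finset.mem_insert, Finset.mem_singleton] at hd
    obtain ⟨m', hm', hm1, hm2⟩ : ∃ m', m = 8 * m' + d ∧ L n ≤ m' ∧ m' ≤ U n := by
      rcases hd with hd | hd
      · exact ⟨m / 8, by omega, by omega, by omega⟩
      · exact ⟨m / 8 - 1, by omega, by omega, by omega⟩
    obtain ⟨F, hF, hFs⟩ := ih m' hm1 hm2
    have hdisj : Disjoint F (G.image (fun i => i + 3 * (n + 1))) := by
      rw [Finset.disjoint_left]
      intro a ha hb
      rw [Finset.mem_image] at hb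
      obtain ⟨i, _, rfl⟩ := hb
      have := Finset.mem_range.1 (hF ha)
      omega
    refine ⟨F ∪ G.image (fun i => i + 3 * (n + 1)), ?_, ?_⟩
    · intro a ha
      rw [Finset.mem_union, Finset.mem_image] at ha
      rw [Finset.mem_range]
      rcases ha with ha | ⟨i, hi, rfl⟩
      · have := Finset.mem_range.1 (hF ha)
        omega
      · have := Finset.mem_range.1 (hG hi)
        omega
    · rw [Finset.sum_union hdisj, hFs, Finset.sum_image (by intro a _ b _ h; simpa using h)]
      have h3 : ∑ i ∈ G, x (i + 3 * (n + 1)) = (d : ℝ) / 8 ^ (n + 1) := by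
        rw [← hsum, Nat.cast_sum, Finset.sum_div]
        refine Finset.sum_congr rfl fun i hi => ?_
        have hi' := Finset.mem_range.1 (hG hi)
        rw [x_shift]
        congr 1
        interval_cases i
        · rw [x0]; norm_num
        · rw [x1]; norm_num
        · rw [x2]; norm_num
      rw [h3, hm', pow_succ]
      push_cast
      field_simp

theorem interval : Set.Icc (36 / 7 : ℝ) 7 ⊆ E x := by
  have hcl : IsClosed (E x) := (gE_compact x_pos x_summable).isClosed
  have hoo : Set.Ioo (36 / 7 : ℝ) 7 ⊆ E x := by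
    intro t ht
    rw [← hcl.closure_eq, Metric.mem_closure_iff]
    intro ε hε
    obtain ⟨n, hn⟩ := exists_pow_lt_of_lt_one hε (show (1 / 8 : ℝ) < 1 by norm_num)
    have hp : (0 : ℝ) < 8 ^ n := by positivity
    have ht0 : 0 ≤ t * 8 ^ n := by
      have := ht.1
      positivity
    have h1 : L n ≤ ⌊t * 8 ^ n⌋₊ := by
      apply Nat.le_floor
      have h := L_eq n
      have h' : (7 : ℝ) * (L n : ℝ) + 8 = 36 * 8 ^ n := by exact_mod_cast h
      have := ht.1
      nlinarith
    have h2 : ⌊t * 8 ^ n⌋₊ ≤ U n := by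
      have h := U_eq n
      have : ⌊t * 8 ^ n⌋₊ < U n + 1 := by
        rw [Nat.floor_lt ht0, h]
        push_cast
        have := ht.2
        nlinarith
      omega
    obtain ⟨F, hF, hFs⟩ := expand n _ h1 h2
    refine ⟨((⌊t * 8 ^ n⌋₊ : ℕ) : ℝ) / 8 ^ n, ?_, ?_⟩
    · rw [← hFs]
      have := gE_cons x_summable (3 * (n + 1)) F hF 0 ⟨∅, by simp⟩
      simpa using this
    · have h3 := Nat.floor_le ht0
      have h4 := Nat.lt_floor_add_one (t * 8 ^ n)
      rw [one_div, inv_pow] at hn
      rw [Real.dist_eq]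
      have h5 : t - ((⌊t * 8 ^ n⌋₊ : ℕ) : ℝ) / 8 ^ n = (t * 8 ^ n - (⌊t * 8 ^ n⌋₊ : ℕ)) / 8 ^ n := by
        field_simp
      rw [h5, abs_of_nonneg (div_nonneg (by linarith) hp.le)]
      refine lt_of_le_of_lt ?_ hn
      rw [div_le_iff₀ hp, inv_mul_cancel₀ hp.ne']
      linarith
  rw [← closure_Ioo (by norm_num)]
  exact closure_minimal hoo hcl

theorem regular : closure (interior (E x)) = E x := by
  have hcl : IsClosed (E x) := (gE_compact x_pos x_summable).isClosed
  apply Set.Subset.antisymm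
  · exact closure_minimal interior_subset hcl
  · intro s hs
    rw [Metric.mem_closure_iff]
    intro ε hε
    obtain ⟨k, hk⟩ := exists_pow_lt_of_lt_one (show 0 < ε / (120 / 7) by positivity)
      (show (1 / 8 : ℝ) < 1 by norm_num)
    rw [one_div, inv_pow, lt_div_iff₀ (by norm_num)] at hk
    have hp : (0 : ℝ) < 8 ^ k := by positivity
    obtain ⟨F, hF, e, he, heq⟩ := gE_dec x_summable (3 * k) s hs
    have hsm : Summable (fun n => x (n + 3 * k)) := (summable_nat_add_iff (3 * k)).2 x_summable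
    have he0 : 0 ≤ e := gE_nonneg (fun n => x_pos _) e he
    have he1 : e ≤ 120 / 7 / 8 ^ k := by
      rw [← tsum_tail]
      exact E_le (fun n => x_pos _) hsm e he
    refine ⟨∑ i ∈ F, x i + 6 / 8 ^ k, ?_, ?_⟩
    · rw [mem_interior]
      refine ⟨Set.Ioo (∑ i ∈ F, x i + 36 / 7 / 8 ^ k) (∑ i ∈ F, x i + 7 / 8 ^ k), ?_,
        isOpen_Ioo, ?_, ?_⟩
      · intro z hz
        have h1 : (z - ∑ i ∈ F, x i) * 8 ^ k ∈ E x := by
          apply interval
          have ha := hz.1
          have hb := hz.2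
          constructor
          · have : 36 / 7 / 8 ^ k < z - ∑ i ∈ F, x i := by linarith
            rw [div_lt_iff₀ hp] at this
            exact this.le
          · have : z - ∑ i ∈ F, x i < 7 / 8 ^ k := by linarith
            rw [lt_div_iff₀ hp] at this
            exact this.le
        have h2 := E_scale k _ h1
        rw [mul_div_cancel_right₀ _ hp.ne'] at h2
        have h3 := gE_cons x_summable (3 * k) F hF _ h2
        simpa using h3
      · have : (36 : ℝ) / 7 / 8 ^ k < 6 / 8 ^ k := (div_lt_div_iff_of_pos_right hp).2 (by norm_num)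
        linarith
      · have : (6 : ℝ) / 8 ^ k < 7 / 8 ^ k := (div_lt_div_iff_of_pos_right hp).2 (by norm_num)
        linarith
    · rw [heq, Real.dist_eq]
      have h6 : (6 : ℝ) / 8 ^ k ≤ 120 / 7 / 8 ^ k := (div_le_div_iff_of_pos_right hp).2 (by norm_num)
      have h60 : (0 : ℝ) ≤ 6 / 8 ^ k := by positivity
      have h7 : (120 : ℝ) / 7 / 8 ^ k < ε := by
        rw [div_eq_mul_inv, mul_comm]
        exact hk
      rw [abs_lt]
      constructor <;> linarith

/-! ### Deleting infinitely many terms gives a null set -/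

theorem null_of_infinite (A : Set ℕ) (hA : A.Infinite) :
    MeasureTheory.volume {s : ℝ | ∃ B : Set ℕ, B ⊆ Aᶜ ∧ s = ∑' n, B.indicator x n} = 0 := by
  classical
  have key : ∀ j : ℕ,
      MeasureTheory.volume {s : ℝ | ∃ B : Set ℕ, B ⊆ Aᶜ ∧ s = ∑' n, B.indicator x n}
        ≤ ENNReal.ofReal (120 / 7 / 2 ^ j) := by
    intro j
    obtain ⟨t, htA, htc⟩ := hA.exists_subset_card_eq j
    set k := t.sup id + 1 with hk
    have htk : t ⊆ Finset.range (3 * k) := by
      intro i hi
      rw [Finset.mem_range]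
      have : i ≤ t.sup id := Finset.le_sup (f := id) hi
      omega
    have hp : (0 : ℝ) < 8 ^ k := by positivity
    set P := ((Finset.range (3 * k)).filter (· ∉ A)) with hP
    have hcard : P.card + j ≤ 3 * k := by
      have h1 : Disjoint P t := by
        rw [Finset.disjoint_left]
        intro a ha hb
        exact (Finset.mem_filter.1 ha).2 (htA hb)
      have h2 : P ∪ t ⊆ Finset.range (3 * k) :=
        Finset.union_subset (Finset.filter_subset _ _) htk
      have h3 := Finset.card_le_card h2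
      rw [Finset.card_union_of_disjoint h1, Finset.card_range, htc] at h3
      exact h3
    have hsub : {s : ℝ | ∃ B : Set ℕ, B ⊆ Aᶜ ∧ s = ∑' n, B.indicator x n} ⊆
        ⋃ F ∈ P.powerset, Set.Icc (∑ i ∈ F, x i) (∑ i ∈ F, x i + 120 / 7 / 8 ^ k) := by
      rintro s ⟨B, hB, rfl⟩
      simp only [Set.mem_iUnion]
      refine ⟨(Finset.range (3 * k)).filter (· ∈ B), ?_, ?_⟩
      · rw [Finset.mem_powerset]
        intro i hi
        rw [Finset.mem_filter] at hi ⊢
        exact ⟨hi.1, hB hi.2⟩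
      · have h1 := (x_summable.indicator B).sum_add_tsum_nat_add (3 * k)
        have h2 : ∑ i ∈ Finset.range (3 * k), B.indicator x i =
            ∑ i ∈ (Finset.range (3 * k)).filter (· ∈ B), x i := by
          rw [Finset.sum_filter]
          exact Finset.sum_congr rfl fun i hi => by rw [Set.indicator_apply]
        have h3 : 0 ≤ ∑' i, B.indicator x (i + 3 * k) :=
          tsum_nonneg fun i => Set.indicator_nonneg (fun n _ => (x_pos n).le) _
        have h4 : ∑' i, B.indicator x (i + 3 * k) ≤ 120 / 7 / 8 ^ k := by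
          rw [← tsum_tail]
          refine Summable.tsum_le_tsum (fun i => ?_)
            ((summable_nat_add_iff (3 * k)).2 (x_summable.indicator B))
            ((summable_nat_add_iff (3 * k)).2 x_summable)
          exact Set.indicator_le_self' (fun n _ => (x_pos n).le) _
        rw [← h1, h2]
        constructor <;> linarith
    refine (MeasureTheory.measure_mono hsub).trans
      ((MeasureTheory.measure_biUnion_finset_le _ _).trans ?_)
    have h5 : ∀ F ∈ P.powerset,
        MeasureTheory.volume (Set.Icc (∑ i ∈ F, x i) (∑ i ∈ F, x i + 120 / 7 / 8 ^ k)) =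
          ENNReal.ofReal (120 / 7 / 8 ^ k) := by
      intro F _
      rw [Real.volume_Icc]
      congr 1
      ring
    rw [Finset.sum_congr rfl h5, Finset.sum_const, Finset.card_powerset, nsmul_eq_mul]
    rw [← ENNReal.ofReal_natCast, ← ENNReal.ofReal_mul (by positivity)]
    apply ENNReal.ofReal_le_ofReal
    push_cast
    have h8 : (8 : ℝ) ^ k = 2 ^ (3 * k) := by rw [pow_mul]; norm_num
    rw [h8, ← mul_div_assoc, div_le_div_iff₀ (by positivity) (by positivity)]
    have h9 : (2 : ℝ) ^ P.card * 2 ^ j ≤ 2 ^ (3 * k) := by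
      rw [← pow_add]
      exact pow_le_pow_right₀ (by norm_num) hcard
    nlinarith
  by_contra hne
  have hpos : 0 < MeasureTheory.volume
      {s : ℝ | ∃ B : Set ℕ, B ⊆ Aᶜ ∧ s = ∑' n, B.indicator x n} := pos_iff_ne_zero.2 hne
  have hfin : MeasureTheory.volume
      {s : ℝ | ∃ B : Set ℕ, B ⊆ Aᶜ ∧ s = ∑' n, B.indicator x n} ≠ ⊤ :=
    ne_top_of_le_ne_top ENNReal.ofReal_ne_top (key 0)
  set v := (MeasureTheory.volume
      {s : ℝ | ∃ B : Set ℕ, B ⊆ Aᶜ ∧ s = ∑' n, B.indicator x n}).toReal with hv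
  have hv0 : 0 < v := ENNReal.toReal_pos hne hfin
  obtain ⟨j, hj⟩ := exists_pow_lt_of_lt_one (show 0 < v / (120 / 7) by positivity)
    (show (1 / 2 : ℝ) < 1 by norm_num)
  have h1 := ENNReal.toReal_mono ENNReal.ofReal_ne_top (key j)
  rw [ENNReal.toReal_ofReal (by positivity), ← hv] at h1
  rw [one_div, inv_pow, lt_div_iff₀ (by norm_num)] at hj
  rw [div_eq_mul_inv, mul_comm] at h1
  linarith

theorem no_homeo (A : Set ℕ) (hA : A.Infinite) (S : Set ℝ)
    (hI : Set.Icc (36 / 7 : ℝ) 7 ⊆ S)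
    (φ : {s : ℝ | ∃ B : Set ℕ, B ⊆ Aᶜ ∧ s = ∑' n, B.indicator x n} ≃ₜ S) : False := by
  set T := {s : ℝ | ∃ B : Set ℕ, B ⊆ Aᶜ ∧ s = ∑' n, B.indicator x n} with hT
  let g : Set.Icc (36 / 7 : ℝ) 7 → ℝ := fun t => (φ.symm ⟨t.1, hI t.2⟩ : ℝ)
  have hg : Continuous g := by
    apply continuous_subtype_val.comp
    apply φ.symm.continuous.comp
    exact Continuous.subtype_mk continuous_subtype_val _
  have : PreconnectedSpace (Set.Icc (36 / 7 : ℝ) 7) := Subtype.preconnectedSpace isPreconnected_Icc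
  have hpre : IsPreconnected (Set.range g) := isPreconnected_range hg
  have hsub : Set.range g ⊆ T := by
    rintro _ ⟨t, rfl⟩
    exact (φ.symm ⟨t.1, hI t.2⟩).2
  let a : Set.Icc (36 / 7 : ℝ) 7 := ⟨36 / 7, by norm_num, by norm_num⟩
  let b : Set.Icc (36 / 7 : ℝ) 7 := ⟨7, by norm_num, by norm_num⟩
  have hne : g a ≠ g b := by
    intro h
    have h1 := Subtype.ext h
    have h2 := φ.symm.injective h1
    have h3 := congrArg Subtype.val h2
    norm_num [a, b] at h3
  have hnull := null_of_infinite A hA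
  rw [← hT] at hnull
  rcases lt_or_gt_of_ne hne with h | h
  · have h1 : Set.Icc (g a) (g b) ⊆ T :=
      (hpre.Icc_subset (Set.mem_range_self a) (Set.mem_range_self b)).trans hsub
    have h2 := MeasureTheory.measure_mono_null h1 hnull
    rw [Real.volume_Icc, ENNReal.ofReal_eq_zero] at h2
    linarith
  · have h1 : Set.Icc (g b) (g a) ⊆ T :=
      (hpre.Icc_subset (Set.mem_range_self b) (Set.mem_range_self a)).trans hsub
    have h2 := MeasureTheory.measure_mono_null h1 hnull
    rw [Real.volume_Icc, ENNReal.ofReal_eq_zero] at h2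
    linarith

theorem often : {n : ℕ | x n < ∑' k, x (n + 2 + k)}.Infinite := by
  apply Set.infinite_of_injective_forall_mem (f := fun k : ℕ => 3 * k)
  · intro a b h
    simpa using h
  · intro k
    have hp : (0 : ℝ) < 8 ^ k := by positivity
    change x (3 * k) < ∑' j, x (3 * k + 2 + j)
    have h1 : ∑' j, x (3 * k + 2 + j) = (∑' j, x (j + 2)) / 8 ^ k := by
      rw [← tsum_div_const]
      refine tsum_congr fun j => ?_
      rw [← x_shift]
      congr 1
      ring
    have h2 := x_summable.sum_add_tsum_nat_add 2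
    simp only [Finset.sum_range_succ, Finset.sum_range_zero, x0, x1, tsum_x] at h2
    have h3 : x (3 * k) = 6 / 8 ^ k := by
      have := x_shift 0 k
      rwa [zero_add, x0] at this
    rw [h1, h3, div_lt_div_iff_of_pos_right hp]
    linarith

end Pool.Agent.R559.Ach654
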