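import Mathlib

set_option autoImplicit false

/-!
# General facts on achievement sets

The facts of this file are those of the general section of the starting file S03926, copied here.
-/

namespace Pool.Agent.R559.Achieve

/-! ### Achievement sets: general facts -/

/-- the set of subsums -/
def E (f : ℕ → ℝ) : Set ℝ := {s : ℝ | ∃ A : Set ℕ, s = ∑' n, A.indicator f n}

section General

variable {x : ℕ → ℝ}

theorem gE_compact (hpos : ∀ n, 0 < x n) (hx : Summable x) : IsCompact (E x) := by
  have hc : Continuous (fun ε : ℕ → Bool => ∑' i, (if ε i = true then x i else 0)) := by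
    refine continuous_tsum (u := x) ?_ hx ?_
    · intro i
      have : (fun ε : ℕ → Bool => (if ε i = true then x i else 0))
          = (fun b : Bool => (if b = true then x i else 0)) ∘ (fun ε : ℕ → Bool => ε i) := rfl
      rw [this]
      exact (continuous_of_discreteTopology).comp (continuous_apply i)
    · intro i ε
      split_ifs
      · simp [abs_of_pos (hpos i)]
      · simpa using (hpos i).le
  have : E x = Set.range (fun ε : ℕ → Bool => ∑' i, (if ε i = true then x i else 0)) := by
    ext s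
    constructor
    · rintro ⟨A, rfl⟩
      classical
      refine ⟨fun i => decide (i ∈ A), ?_⟩
      refine tsum_congr fun i => ?_
      by_cases hi : i ∈ A <;> simp [hi]
    · rintro ⟨ε, rfl⟩
      refine ⟨{i | ε i = true}, ?_⟩
      refine tsum_congr fun i => ?_
      by_cases hi : ε i = true <;> simp [hi]
  rw [this]
  exact isCompact_range hc

theorem gE_nonneg (hpos : ∀ n, 0 < x n) (s : ℝ) (hs : s ∈ E x) : 0 ≤ s := by
  obtain ⟨A, rfl⟩ := hs
  exact tsum_nonneg fun n => Set.indicator_nonneg (fun n _ => (hpos n).le) n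

theorem gE_symm (hx : Summable x) (s : ℝ) (hs : s ∈ E x) : ∑' n, x n - s ∈ E x := by
  obtain ⟨A, rfl⟩ := hs
  refine ⟨Aᶜ, ?_⟩
  rw [← hx.tsum_sub (hx.indicator A)]
  refine tsum_congr fun n => ?_
  have := congrFun (Set.indicator_self_add_compl A x) n
  simp only [Pi.add_apply] at this
  linarith

theorem gE_cons (hx : Summable x) (N : ℕ) (F : Finset ℕ) (hF : F ⊆ Finset.range N) (e : ℝ)
    (he : e ∈ E (fun n => x (n + N))) : ∑ i ∈ F, x i + e ∈ E x := by
  classical
  obtain ⟨A, rfl⟩ := he
  refine ⟨{n | (n < N ∧ n ∈ F) ∨ (N ≤ n ∧ n - N ∈ A)}, ?_⟩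
  rw [← (hx.indicator {n | (n < N ∧ n ∈ F) ∨ (N ≤ n ∧ n - N ∈ A)}).sum_add_tsum_nat_add N]
  congr 1
  · refine Eq.trans ?_ (Finset.sum_subset hF ?_)
    · refine Finset.sum_congr rfl fun i hi => ?_
      have hi' := Finset.mem_range.1 (hF hi)
      rw [Set.indicator_of_mem (by exact Or.inl ⟨hi', hi⟩)]
    · intro i hi hi2
      have hi' := Finset.mem_range.1 hi
      rw [Set.indicator_of_notMem]
      rintro (h | h)
      · exact hi2 h.2
      · exact absurd h.1 (by omega)
  · refine tsum_congr fun n => ?_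
    have hiff : n + N ∈ ({n | (n < N ∧ n ∈ F) ∨ (N ≤ n ∧ n - N ∈ A)} : Set ℕ) ↔ n ∈ A := by
      simp only [Set.mem_ofPred_eq]
      constructor
      · rintro (h | h)
        · omega
        · have := h.2
          rwa [Nat.add_sub_cancel] at this
      · intro h
        right
        exact ⟨by omega, by rwa [Nat.add_sub_cancel]⟩
    rw [Set.indicator_apply, Set.indicator_apply]
    simp only [hiff]

theorem gE_dec (hx : Summable x) (N : ℕ) (s : ℝ) (hs : s ∈ E x) :
    ∃ F : Finset ℕ, F ⊆ Finset.range N ∧ ∃ e ∈ E (fun n => x (n + N)), s = ∑ i ∈ F, x i + e := by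
  classical
  obtain ⟨A, rfl⟩ := hs
  refine ⟨(Finset.range N).filter (· ∈ A), Finset.filter_subset _ _,
    ∑' n, ({n | n + N ∈ A} : Set ℕ).indicator (fun n => x (n + N)) n, ⟨_, rfl⟩, ?_⟩
  rw [← (hx.indicator A).sum_add_tsum_nat_add N]
  congr 1
  rw [Finset.sum_filter]
  exact Finset.sum_congr rfl fun i hi => by rw [Set.indicator_apply]

/-- removing one used term -/
theorem gE_remove (hx : Summable x) (s : ℝ) (hs : s ∈ E x) (h0 : s ≠ 0) :
    ∃ n, s - x n ∈ E x := by
  classical
  obtain ⟨A, rfl⟩ := hs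
  have hne : A.Nonempty := by
    by_contra h
    rw [Set.not_nonempty_iff_eq_empty] at h
    apply h0
    simp [h]
  obtain ⟨n, hn⟩ := hne
  refine ⟨n, A \ {n}, ?_⟩
  have h1 : ∑' k, ({n} : Set ℕ).indicator x k = x n := by
    rw [tsum_eq_single n]
    · simp
    · intro k hk
      simp [hk]
  rw [← h1, ← (hx.indicator A).tsum_sub (hx.indicator {n})]
  refine tsum_congr fun k => ?_
  by_cases hk : k = n
  · subst hk
    simp [hn]
  · by_cases hkA : k ∈ A <;> simp [hk, hkA]

/-- to the right of the right endpoint of a gap there are points outside `E` -/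
theorem gap_right (hpos : ∀ n, 0 < x n) (hx : Summable x)
    (H : ∀ δ > 0, ∃ w, 0 < w ∧ w < δ ∧ w ∉ E x) (y v : ℝ) (hy : y < v)
    (hgap : ∀ z, y < z → z < v → z ∉ E x) : ∀ δ > 0, ∃ w, v < w ∧ w < v + δ ∧ w ∉ E x := by
  intro δ hδ
  have hlim : Filter.Tendsto x Filter.atTop (nhds 0) := hx.tendsto_atTop_zero
  obtain ⟨N, hN⟩ := Filter.eventually_atTop.1 (hlim.eventually_lt_const (sub_pos.2 hy))
  have hxN : Summable (fun n => x (n + N)) := (summable_nat_add_iff N).2 hx
  have hcN : IsCompact (E (fun n => x (n + N))) := gE_compact (fun n => hpos _) hxN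
  let U : Set ℝ := ⋃ F ∈ {F : Finset ℕ | F ∈ (Finset.range N).powerset ∧ ∑ i ∈ F, x i ≠ v},
    (fun e => ∑ i ∈ F, x i + e) '' E (fun n => x (n + N))
  have hUc : IsClosed U := by
    refine Set.Finite.isClosed_biUnion ?_ ?_
    · exact ((Finset.range N).powerset.finite_toSet).subset fun F hF => hF.1
    · intro F _
      exact (hcN.image (continuous_const.add continuous_id)).isClosed
  have hvU : v ∉ U := by
    intro h
    simp only [U, Set.mem_iUnion] at h
    obtain ⟨F, ⟨hF, hne⟩, e, he, heq⟩ := h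
    have he0 : e ≠ 0 := by
      rintro rfl
      apply hne
      simpa using heq
    obtain ⟨n, hn⟩ := gE_remove hxN e he he0
    have h1 := gE_cons hx N F (Finset.mem_powerset.1 hF) _ hn
    have h2 := hN (n + N) (Nat.le_add_left _ _)
    have h3 := hpos (n + N)
    dsimp only at heq
    refine hgap _ ?_ ?_ h1
    · linarith
    · linarith
  obtain ⟨δ₀, hδ₀, hball⟩ := Metric.isOpen_iff.1 hUc.isOpen_compl v hvU
  obtain ⟨w, hw0, hw1, hw2⟩ := H (min δ δ₀) (lt_min hδ hδ₀)
  refine ⟨v + w, by linarith, by linarith [min_le_left δ δ₀], ?_⟩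
  intro hmem
  obtain ⟨F, hF, e, he, heq⟩ := gE_dec hx N _ hmem
  by_cases hFv : ∑ i ∈ F, x i = v
  · have hew : e = w := by linarith
    apply hw2
    have := gE_cons hx N ∅ (Finset.empty_subset _) e he
    rw [Finset.sum_empty, zero_add, hew] at this
    exact this
  · have h1 : v + w ∈ U := by
      simp only [U, Set.mem_iUnion]
      exact ⟨F, ⟨Finset.mem_powerset.2 hF, hFv⟩, e, he, heq.symm⟩
    have h2 : v + w ∈ Metric.ball v δ₀ := by
      rw [Metric.mem_ball, Real.dist_eq]
      have : v + w - v = w := by ring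
      rw [this, abs_of_pos hw0]
      exact lt_of_lt_of_le hw1 (min_le_right _ _)
    exact hball h2 h1

/-- to the left of the left endpoint of a gap there are points outside `E` -/
theorem gap_left (hpos : ∀ n, 0 < x n) (hx : Summable x)
    (H : ∀ δ > 0, ∃ w, 0 < w ∧ w < δ ∧ w ∉ E x) (y v : ℝ) (hy : v < y)
    (hgap : ∀ z, v < z → z < y → z ∉ E x) : ∀ δ > 0, ∃ w, v - δ < w ∧ w < v ∧ w ∉ E x := by
  intro δ hδ
  have h1 : ∀ z, ∑' n, x n - y < z → z < ∑' n, x n - v → z ∉ E x := by
    intro z hz1 hz2 hz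
    have := gE_symm hx z hz
    exact hgap _ (by linarith) (by linarith) this
  obtain ⟨w, hw1, hw2, hw3⟩ := gap_right hpos hx H (∑' n, x n - y) (∑' n, x n - v) (by linarith)
    h1 δ hδ
  refine ⟨∑' n, x n - w, by linarith, by linarith, fun h => hw3 ?_⟩
  have := gE_symm hx _ h
  simpa using this

theorem comp_trivial (S : Set ℝ) (v : ℝ) (hv : v ∈ S) (hr : ∀ δ > 0, ∃ w, v < w ∧ w < v + δ ∧ w ∉ S)
    (hl : ∀ δ > 0, ∃ w, v - δ < w ∧ w < v ∧ w ∉ S) : connectedComponentIn S v = {v} := by
  apply Set.Subset.antisymm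
  · intro z hz
    rw [Set.mem_singleton_iff]
    by_contra hne
    have hpre := isPreconnected_connectedComponentIn (x := v) (F := S)
    have hmv := mem_connectedComponentIn hv
    have hsub := connectedComponentIn_subset S v
    rcases lt_or_gt_of_ne hne with h | h
    · obtain ⟨w, hw1, hw2, hw3⟩ := hl (v - z) (by linarith)
      exact hw3 (hsub (hpre.Icc_subset hz hmv ⟨by linarith, hw2.le⟩))
    · obtain ⟨w, hw1, hw2, hw3⟩ := hr (z - v) (by linarith)
      exact hw3 (hsub (hpre.Icc_subset hmv hz ⟨hw1.le, by linarith⟩))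
  · intro z hz
    rw [Set.mem_singleton_iff.1 hz]
    exact mem_connectedComponentIn hv

/-- the endpoint condition in the definition of a Cantorval -/
theorem endpoints (hpos : ∀ n, 0 < x n) (hx : Summable x)
    (H : ∀ δ > 0, ∃ w, 0 < w ∧ w < δ ∧ w ∉ E x) :
    ∀ p ∈ E x, (connectedComponentIn (E x) p).Nontrivial →
      sInf (connectedComponentIn (E x) p) ∈ closure {y ∈ E x | connectedComponentIn (E x) y = {y}} ∧
      sSup (connectedComponentIn (E x) p) ∈ closure {y ∈ E x | connectedComponentIn (E x) y = {y}} := by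
  intro p hp hnt
  have hcomp := gE_compact hpos hx
  set C := connectedComponentIn (E x) p with hC
  have hCsub : C ⊆ E x := connectedComponentIn_subset _ _
  have hCne : C.Nonempty := ⟨p, mem_connectedComponentIn hp⟩
  have hpre : IsPreconnected C := isPreconnected_connectedComponentIn
  have hbb : BddBelow C := hcomp.bddBelow.mono hCsub
  have hba : BddAbove C := hcomp.bddAbove.mono hCsub
  obtain ⟨a, ha, b, hb, hab⟩ := hnt
  constructor
  · -- left endpoint
    set α := sInf C with hα
    have hαE : α ∈ E x := by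
      have h1 : α ∈ closure C := csInf_mem_closure hCne hbb
      exact hcomp.isClosed.closure_subset_iff.2 hCsub h1
    -- a point of C strictly above α
    obtain ⟨z, hzC, hz⟩ : ∃ z ∈ C, α < z := by
      have h1 := csInf_le hbb ha
      have h2 := csInf_le hbb hb
      rcases lt_or_gt_of_ne hab with h | h
      · exact ⟨b, hb, lt_of_le_of_lt h1 h⟩
      · exact ⟨a, ha, lt_of_le_of_lt h2 h⟩
    have hIoc : Set.Icc α z ⊆ E x := by
      intro u hu
      rcases eq_or_lt_of_le hu.1 with h | h
      · rw [← h]; exact hαE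
      · obtain ⟨c, hc, hcu⟩ := exists_lt_of_csInf_lt hCne h
        exact hCsub (hpre.Icc_subset hc hzC ⟨hcu.le, hu.2⟩)
    rw [Metric.mem_closure_iff]
    intro δ hδ
    -- a point outside E to the left of α
    obtain ⟨y, hy1, hy2, hy3⟩ : ∃ y, α - δ < y ∧ y < α ∧ y ∉ E x := by
      by_contra hcon
      push Not at hcon
      have hsub : Set.Ioc (α - δ) z ⊆ E x := by
        intro u hu
        rcases lt_or_ge u α with h | h
        · exact hcon u hu.1 h
        · exact hIoc ⟨h, hu.2⟩
      have h1 : Set.Ioc (α - δ) z ⊆ connectedComponentIn (E x) z :=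
        isPreconnected_Ioc.subset_connectedComponentIn ⟨by linarith, le_rfl⟩ hsub
      have h2 : connectedComponentIn (E x) z = C := (connectedComponentIn_eq hzC).symm
      rw [h2] at h1
      have h3 : α - δ / 2 ∈ C := h1 ⟨by linarith, by linarith⟩
      have := csInf_le hbb h3
      linarith
    -- the right endpoint of the gap containing y
    have hV : (E x ∩ Set.Ici y).Nonempty := ⟨α, hαE, hy2.le⟩
    have hVb : BddBelow (E x ∩ Set.Ici y) := ⟨y, fun u hu => hu.2⟩
    have hvm : sInf (E x ∩ Set.Ici y) ∈ E x ∩ Set.Ici y :=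
      (hcomp.isClosed.inter isClosed_Ici).csInf_mem hV hVb
    set v := sInf (E x ∩ Set.Ici y) with hv
    have hvα : v ≤ α := csInf_le hVb ⟨hαE, hy2.le⟩
    have hyv : y < v := lt_of_le_of_ne hvm.2 (fun h => hy3 (h ▸ hvm.1))
    have hgap : ∀ u, y < u → u < v → u ∉ E x := fun u hu1 hu2 hu =>
      absurd (csInf_le hVb ⟨hu, hu1.le⟩) (not_le.2 hu2)
    refine ⟨v, ⟨hvm.1, ?_⟩, ?_⟩
    · apply comp_trivial _ _ hvm.1 (gap_right hpos hx H y v hyv hgap)
      intro δ' hδ'
      refine ⟨max ((y + v) / 2) (v - δ' / 2), ?_, ?_, ?_⟩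
      · exact lt_of_lt_of_le (by linarith) (le_max_right _ _)
      · exact max_lt (by linarith) (by linarith)
      · exact hgap _ (lt_of_lt_of_le (by linarith) (le_max_left _ _))
          (max_lt (by linarith) (by linarith))
    · rw [Real.dist_eq, abs_of_nonneg (by linarith)]
      linarith
  · -- right endpoint
    set α := sSup C with hα
    have hαE : α ∈ E x := by
      have h1 : α ∈ closure C := csSup_mem_closure hCne hba
      exact hcomp.isClosed.closure_subset_iff.2 hCsub h1
    obtain ⟨z, hzC, hz⟩ : ∃ z ∈ C, z < α := by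
      have h1 := le_csSup hba ha
      have h2 := le_csSup hba hb
      rcases lt_or_gt_of_ne hab with h | h
      · exact ⟨a, ha, lt_of_lt_of_le h h2⟩
      · exact ⟨b, hb, lt_of_lt_of_le h h1⟩
    have hIoc : Set.Icc z α ⊆ E x := by
      intro u hu
      rcases eq_or_lt_of_le hu.2 with h | h
      · rw [h]; exact hαE
      · obtain ⟨c, hc, hcu⟩ := exists_lt_of_lt_csSup hCne h
        exact hCsub (hpre.Icc_subset hzC hc ⟨hu.1, hcu.le⟩)
    rw [Metric.mem_closure_iff]
    intro δ hδ
    obtain ⟨y, hy1, hy2, hy3⟩ : ∃ y, y < α + δ ∧ α < y ∧ y ∉ E x := by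
      by_contra hcon
      push Not at hcon
      have hsub : Set.Ico z (α + δ) ⊆ E x := by
        intro u hu
        rcases lt_or_ge α u with h | h
        · exact hcon u hu.2 h
        · exact hIoc ⟨hu.1, h⟩
      have h1 : Set.Ico z (α + δ) ⊆ connectedComponentIn (E x) z :=
        isPreconnected_Ico.subset_connectedComponentIn ⟨le_rfl, by linarith⟩ hsub
      have h2 : connectedComponentIn (E x) z = C := (connectedComponentIn_eq hzC).symm
      rw [h2] at h1
      have h3 : α + δ / 2 ∈ C := h1 ⟨by linarith, by linarith⟩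
      have := le_csSup hba h3
      linarith
    have hV : (E x ∩ Set.Iic y).Nonempty := ⟨α, hαE, hy2.le⟩
    have hVb : BddAbove (E x ∩ Set.Iic y) := ⟨y, fun u hu => hu.2⟩
    have hvm : sSup (E x ∩ Set.Iic y) ∈ E x ∩ Set.Iic y :=
      (hcomp.isClosed.inter isClosed_Iic).csSup_mem hV hVb
    set v := sSup (E x ∩ Set.Iic y) with hv
    have hvα : α ≤ v := le_csSup hVb ⟨hαE, hy2.le⟩
    have hyv : v < y := lt_of_le_of_ne hvm.2 (fun h => hy3 (h ▸ hvm.1))
    have hgap : ∀ u, v < u → u < y → u ∉ E x := fun u hu1 hu2 hu =>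
      absurd (le_csSup hVb ⟨hu, hu2.le⟩) (not_le.2 hu1)
    refine ⟨v, ⟨hvm.1, ?_⟩, ?_⟩
    · refine comp_trivial _ _ hvm.1 ?_ (gap_left hpos hx H y v hyv hgap)
      intro δ' hδ'
      refine ⟨min ((y + v) / 2) (v + δ' / 2), ?_, ?_, ?_⟩
      · exact lt_min (by linarith) (by linarith)
      · exact lt_of_le_of_lt (min_le_right _ _) (by linarith)
      · exact hgap _ (lt_min (by linarith) (by linarith))
          (lt_of_le_of_lt (min_le_left _ _) (by linarith))
    · rw [Real.dist_eq, abs_of_nonpos (by linarith)]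
      linarith

end General


end Pool.Agent.R559.Achieve
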