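import Pool.Agent.R559.DualSlack

set_option autoImplicit false
set_option linter.unusedSectionVars false
set_option linter.unusedSimpArgs false

/-!
# The averaging theorem

`Mass G mass ℓ c`: the function `G` on the box from `ℓ` to `c` is the sum of the nonnegative masses of
the points below.
-/

namespace Pool.Agent.R559.Dual

open Finset Classical

variable {ι : Type*} [Fintype ι]

/-- the points between `ℓ` and `x` -/
noncomputable def box (ℓ x : ι → ℕ) : Finset (ι → ℕ) :=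
  Fintype.piFinset fun j => Icc (ℓ j) (x j)

theorem mem_box {ℓ x z : ι → ℕ} : z ∈ box ℓ x ↔ ℓ ≤ z ∧ z ≤ x := by
  unfold box
  rw [Fintype.mem_piFinset]
  constructor
  · intro h
    exact ⟨fun j => (mem_Icc.1 (h j)).1, fun j => (mem_Icc.1 (h j)).2⟩
  · intro h j
    exact mem_Icc.2 ⟨h.1 j, h.2 j⟩

/-- the mass of the points `z ≠ ℓ` below `x` is `G x - G ℓ` -/
structure Mass (G : (ι → ℕ) → ℝ) (mass : (ι → ℕ) → (ι → ℕ) → ℝ) : Prop where
  nonneg : ∀ ℓ z, ℓ ≤ z → 0 ≤ mass ℓ z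
  sum : ∀ ℓ x, ℓ ≤ x → ∑ z ∈ (box ℓ x).erase ℓ, mass ℓ z = G x - G ℓ

theorem Mass.mono {G : (ι → ℕ) → ℝ} {mass : (ι → ℕ) → (ι → ℕ) → ℝ} (h : Mass G mass)
    {x y : ι → ℕ} (hxy : x ≤ y) : G x ≤ G y := by
  have h1 := h.sum x y hxy
  have h2 : 0 ≤ ∑ z ∈ (box x y).erase x, mass x z :=
    sum_nonneg fun z hz => h.nonneg x z (mem_box.1 (mem_of_mem_erase hz)).1
  linarith

/-- The averaging theorem. `K` bounds the number of the points of `X` whose own mass is large. -/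
theorem average (G : (ι → ℕ) → ℝ) (mass : (ι → ℕ) → (ι → ℕ) → ℝ) (hG : Mass G mass) (t : ℝ)
    (c : ι → ℕ) (M K : ℕ) (hM : 2 ≤ M)
    (hK : ∀ (ℓ : ι → ℕ) (X Y : Finset (ι → ℕ)), Pair ℓ X Y → Y.Nonempty → Y.card ≤ M →
      (∀ j, ∃ y ∈ Y, y j = ℓ j) → (∀ x ∈ X, t < G x ∧ x ≤ c) → (∀ y ∈ Y, G y ≤ t ∧ y ≤ c) →
      (X.filter fun x => (t - G ℓ) / M < mass ℓ x).card ≤ K) :
    ∀ (m : ℕ) (ℓ : ι → ℕ) (X Y : Finset (ι → ℕ)), Pair ℓ X Y → Y.card = m → Y.Nonempty →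
      m ≤ M → (∀ x ∈ X, t < G x ∧ x ≤ c) → (∀ y ∈ Y, G y ≤ t ∧ y ≤ c) →
      X.card ≤ K * m ^ 3 := by
  intro m
  induction m using Nat.strong_induction_on with
  | _ m ih =>
  intro ℓ₀ X₀ Y hP₀ hm hY hmM hX₀ hYt
  set ℓ := corner Y hY with hℓ
  set X := X₀.image fun x => x ⊔ ℓ with hX
  have hP : Pair ℓ X Y := hP₀.compress hY
  have hm1 : 1 ≤ m := by rw [← hm]; exact card_pos.2 hY
  have hmR : (1 : ℝ) ≤ m := by exact_mod_cast hm1
  have hcard : X₀.card = X.card := (card_image_of_injOn (hP₀.injOn hY)).symm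
  rw [hcard]
  have hcor : ∀ j, ∃ y ∈ Y, y j = ℓ j := exists_corner hY
  have hXt : ∀ x ∈ X, t < G x ∧ x ≤ c := by
    intro x hx
    obtain ⟨x₀, hx₀, rfl⟩ := mem_image.1 hx
    obtain ⟨h1, h2⟩ := hX₀ x₀ hx₀
    refine ⟨lt_of_lt_of_le h1 (hG.mono le_sup_left), sup_le h2 ?_⟩
    obtain ⟨y, hy⟩ := hY
    exact (hP.lY y hy).trans (hYt y hy).2
  have hne : ∀ x ∈ X, x ≠ ℓ := by
    intro x hx h
    obtain ⟨y, hy⟩ := hY
    exact hP.anti x hx y hy (by rw [h]; exact hP.lY y hy)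
  set s : ℝ := t - G ℓ with hs
  have hs0 : 0 ≤ s := by
    obtain ⟨y, hy⟩ := hY
    have h1 := hG.mono (hP.lY y hy)
    have h2 := (hYt y hy).1
    linarith
  set B := X.filter fun x => s / M < mass ℓ x with hB
  have hBK : B.card ≤ K := hK ℓ X Y hP hY (by rw [hm]; exact hmM) hcor hXt hYt
  set A := X \ B with hA
  -- cells
  have hMR : (2 : ℝ) ≤ M := by exact_mod_cast hM
  set Z : Finset (ι → ℕ) := (box ℓ c).erase ℓ with hZ
  have hup : ∀ z ∈ Z, (((A.filter fun x => z ≤ x ∧ z ≠ x).card : ℕ) : ℝ) ≤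
      K * ((m : ℝ) - 1) ^ 2 * ((Y.filter (z ≤ ·)).card : ℝ) := by
    intro z hz
    obtain ⟨hz1, hz2⟩ := mem_erase.1 hz
    have hℓz := (mem_box.1 hz2).1
    rcases (A.filter fun x => z ≤ x ∧ z ≠ x).eq_empty_or_nonempty with h0 | ⟨x₂, hx₂⟩
    · rw [h0, card_empty]
      push_cast
      positivity
    obtain ⟨hx₂a, hx₂b, hx₂c⟩ := mem_filter.1 hx₂
    have hx₂X : x₂ ∈ X := (mem_sdiff.1 hx₂a).1
    have hYz : (Y.filter (z ≤ ·)).Nonempty := by
      obtain ⟨j, hj⟩ : ∃ j, z j < x₂ j := by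
        by_contra hcon
        push Not at hcon
        exact hx₂c (le_antisymm hx₂b hcon)
      obtain ⟨y, hy, h1, h2⟩ := hP.cov x₂ hx₂X j (lt_of_le_of_lt (hℓz j) hj)
      refine ⟨y, mem_filter.2 ⟨hy, fun i => ?_⟩⟩
      show z i ≤ y i
      by_cases hi : i = j
      · rw [hi]; omega
      · exact (hx₂b i).trans (h1 i hi)
    have hcl : (Y.filter (z ≤ ·)).card < Y.card := card_filter_lt hcor hℓz hz1
    have hP1 := hP.sub z hℓz
    have hIH := ih (Y.filter (z ≤ ·)).card (by rw [← hm]; exact hcl) z _ _ hP1 rfl hYz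
      (by omega) (fun x hx => hXt x (mem_filter.1 hx).1) (fun y hy => hYt y (mem_filter.1 hy).1)
    have h1 : (A.filter fun x => z ≤ x ∧ z ≠ x).card ≤ (X.filter (z ≤ ·)).card := by
      apply card_le_card
      intro x hx
      obtain ⟨h1, h2, -⟩ := mem_filter.1 hx
      exact mem_filter.2 ⟨(mem_sdiff.1 h1).1, h2⟩
    have h2 : (((A.filter fun x => z ≤ x ∧ z ≠ x).card : ℕ) : ℝ) ≤
        K * ((Y.filter (z ≤ ·)).card : ℝ) ^ 3 := by exact_mod_cast h1.trans hIH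
    refine h2.trans ?_
    have h8 : ((Y.filter (z ≤ ·)).card : ℝ) ≤ (m : ℝ) - 1 := by
      have : (Y.filter (z ≤ ·)).card + 1 ≤ m := by omega
      have h9 : ((Y.filter (z ≤ ·)).card : ℝ) + 1 ≤ m := by exact_mod_cast this
      linarith
    have h10 : (0 : ℝ) ≤ ((Y.filter (z ≤ ·)).card : ℝ) := Nat.cast_nonneg _
    calc (K : ℝ) * ((Y.filter (z ≤ ·)).card : ℝ) ^ 3
        = K * ((Y.filter (z ≤ ·)).card : ℝ) ^ 2 * ((Y.filter (z ≤ ·)).card : ℝ) := by ring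
      _ ≤ K * ((m : ℝ) - 1) ^ 2 * ((Y.filter (z ≤ ·)).card : ℝ) := by gcongr
  have hsumX : ∀ x ∈ A, ∑ z ∈ Z, (if z ≤ x ∧ z ≠ x then mass ℓ z else 0) =
      G x - G ℓ - mass ℓ x := by
    intro x hx
    have hxX : x ∈ X := (mem_sdiff.1 hx).1
    rw [← hG.sum ℓ x (hP.lX x hxX), ← sum_filter]
    have h1 : Z.filter (fun z => z ≤ x ∧ z ≠ x) = ((box ℓ x).erase ℓ).erase x := by
      ext z
      rw [mem_filter, mem_erase, mem_erase, mem_erase, mem_box, mem_box]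
      constructor
      · rintro ⟨⟨h1, h2, h3⟩, h4, h5⟩
        exact ⟨h5, h1, h2, h4⟩
      · rintro ⟨h5, h1, h2, h4⟩
        exact ⟨⟨h1, h2, h4.trans (hXt x hxX).2⟩, h4, h5⟩
    rw [h1, ← sum_erase_add ((box ℓ x).erase ℓ) _
      (mem_erase.2 ⟨hne x hxX, mem_box.2 ⟨hP.lX x hxX, le_rfl⟩⟩)]
    ring
  have hsumY : ∀ y ∈ Y, ∑ z ∈ Z, (if z ≤ y then mass ℓ z else 0) = G y - G ℓ := by
    intro y hy
    rw [← hG.sum ℓ y (hP.lY y hy), ← sum_filter]
    refine sum_congr ?_ fun _ _ => rfl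
    ext z
    rw [mem_filter, mem_erase, mem_erase, mem_box, mem_box]
    constructor
    · rintro ⟨⟨h1, h2, h3⟩, h4⟩
      exact ⟨h1, h2, h4⟩
    · rintro ⟨h1, h2, h4⟩
      exact ⟨⟨h1, h2, h4.trans (hYt y hy).2⟩, h4⟩
  have hkey : ∑ x ∈ A, (G x - G ℓ - mass ℓ x) ≤ K * ((m : ℝ) - 1) ^ 2 * (m * s) := by
    have e1 : ∑ x ∈ A, (G x - G ℓ - mass ℓ x) =
        ∑ z ∈ Z, mass ℓ z * (((A.filter fun x => z ≤ x ∧ z ≠ x).card : ℕ) : ℝ) := by
      rw [← sum_congr rfl hsumX, sum_comm]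
      refine sum_congr rfl fun z _ => ?_
      rw [← sum_filter, sum_const, nsmul_eq_mul, mul_comm]
    have e2 : ∑ y ∈ Y, (G y - G ℓ) = ∑ z ∈ Z, mass ℓ z * ((Y.filter (z ≤ ·)).card : ℝ) := by
      rw [← sum_congr rfl hsumY, sum_comm]
      refine sum_congr rfl fun z _ => ?_
      rw [← sum_filter, sum_const, nsmul_eq_mul, mul_comm]
    have e3 : ∑ y ∈ Y, (G y - G ℓ) ≤ m * s := by
      calc ∑ y ∈ Y, (G y - G ℓ) ≤ ∑ _y ∈ Y, s := sum_le_sum fun y hy => by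
            have := (hYt y hy).1
            linarith
        _ = m * s := by rw [sum_const, nsmul_eq_mul, hm]
    rw [e1]
    calc ∑ z ∈ Z, mass ℓ z * (((A.filter fun x => z ≤ x ∧ z ≠ x).card : ℕ) : ℝ)
        ≤ ∑ z ∈ Z, mass ℓ z * (K * ((m : ℝ) - 1) ^ 2 * ((Y.filter (z ≤ ·)).card : ℝ)) := by
          refine sum_le_sum fun z hz => mul_le_mul_of_nonneg_left (hup z hz) ?_
          exact hG.nonneg ℓ z (mem_box.1 (mem_erase.1 hz).2).1
      _ = K * ((m : ℝ) - 1) ^ 2 * ∑ y ∈ Y, (G y - G ℓ) := by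
          rw [e2, mul_sum]
          refine sum_congr rfl fun z _ => ?_
          ring
      _ ≤ _ := mul_le_mul_of_nonneg_left e3 (by positivity)
  have hAcard : (A.card : ℝ) ≤ K * ((m : ℝ) - 1) * m ^ 2 := by
    rcases A.eq_empty_or_nonempty with h0 | hne'
    · rw [h0, card_empty]
      have : (0 : ℝ) ≤ (m : ℝ) - 1 := by linarith
      push_cast
      positivity
    have hlow : (A.card : ℝ) * (s * (1 - 1 / M)) < ∑ x ∈ A, (G x - G ℓ - mass ℓ x) := by
      rw [← nsmul_eq_mul, ← sum_const]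
      refine sum_lt_sum_of_nonempty hne' fun x hx => ?_
      obtain ⟨hxX, hxB⟩ := mem_sdiff.1 hx
      have h1 : mass ℓ x ≤ s / M := by
        by_contra hcon
        push Not at hcon
        exact hxB (mem_filter.2 ⟨hxX, hcon⟩)
      have h2 := (hXt x hxX).1
      have h3 : s * (1 - 1 / M) = s - s / M := by ring
      rw [h3]
      linarith
    have h4 := lt_of_lt_of_le hlow hkey
    have hApos : (1 : ℝ) ≤ A.card := by exact_mod_cast card_pos.2 hne'
    rcases hs0.eq_or_lt with h5 | h5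
    · rw [← h5] at h4
      simp at h4
    · have h6 : (A.card : ℝ) * (1 - 1 / M) < K * ((m : ℝ) - 1) ^ 2 * m := by
        have h7 : (A.card : ℝ) * (1 - 1 / M) * s < K * ((m : ℝ) - 1) ^ 2 * m * s := by
          calc (A.card : ℝ) * (1 - 1 / M) * s = A.card * (s * (1 - 1 / M)) := by ring
            _ < _ := h4
            _ = _ := by ring
        exact lt_of_mul_lt_mul_right h7 h5.le
      have hmMR : (m : ℝ) ≤ M := by exact_mod_cast hmM
      have h8 : 1 - 1 / (m : ℝ) ≤ 1 - 1 / M := by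
        have : 1 / (M : ℝ) ≤ 1 / m := one_div_le_one_div_of_le (by linarith) hmMR
        linarith
      have h9 : (A.card : ℝ) * (1 - 1 / m) < K * ((m : ℝ) - 1) ^ 2 * m :=
        lt_of_le_of_lt (mul_le_mul_of_nonneg_left h8 (by linarith)) h6
      have h10 : (m : ℝ) ≠ 0 := by linarith
      have h11 : (A.card : ℝ) * ((m : ℝ) - 1) < K * ((m : ℝ) - 1) ^ 2 * m * m := by
        have : (A.card : ℝ) * ((m : ℝ) - 1) = (A.card : ℝ) * (1 - 1 / m) * m := by
          field_simp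
        rw [this]
        exact mul_lt_mul_of_pos_right h9 (by linarith)
      rcases hmR.eq_or_lt with h12 | h12
      · rw [← h12] at h11
        simp at h11
      · have h13 : (0 : ℝ) < (m : ℝ) - 1 := by linarith
        have h14 : (A.card : ℝ) * ((m : ℝ) - 1) < K * ((m : ℝ) - 1) * m ^ 2 * ((m : ℝ) - 1) := by
          refine h11.trans_eq ?_
          ring
        exact (lt_of_mul_lt_mul_right h14 h13.le).le
  have hsplit : X.card = B.card + A.card := by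
    have h : (X \ B).card + B.card = X.card :=
      card_sdiff_add_card_eq_card (by rw [hB]; exact filter_subset _ _)
    rw [hA]
    omega
  have hfin : (X.card : ℝ) ≤ K * (m : ℝ) ^ 3 := by
    rw [hsplit]
    push_cast
    have hBR : (B.card : ℝ) ≤ K := by exact_mod_cast hBK
    have hK0 : (0 : ℝ) ≤ K := Nat.cast_nonneg _
    nlinarith [mul_nonneg hK0 (by nlinarith : (0 : ℝ) ≤ (m : ℝ) ^ 2 - 1)]
  exact_mod_cast hfin

end Pool.Agent.R559.Dual
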