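import Mathlib

set_option autoImplicit false
set_option linter.unusedSectionVars false
set_option linter.unusedSimpArgs false

/-!
# Dual bounds: covered antichains in integer boxes

`Pair ℓ X Y`: the points of `X` are minimal (above the corner `ℓ`) among the points not dominated by
a point of `Y`.
-/

namespace Pool.Agent.R559.Dual

open Finset Classical

variable {ι : Type*} [Fintype ι]

/-- the points of `X` are minimal points above `ℓ` not below a point of `Y` -/
structure Pair (ℓ : ι → ℕ) (X Y : Finset (ι → ℕ)) : Prop where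
  lX : ∀ x ∈ X, ℓ ≤ x
  lY : ∀ y ∈ Y, ℓ ≤ y
  anti : ∀ x ∈ X, ∀ y ∈ Y, ¬ x ≤ y
  cov : ∀ x ∈ X, ∀ j, ℓ j < x j → ∃ y ∈ Y, (∀ i, i ≠ j → x i ≤ y i) ∧ x j ≤ y j + 1

theorem Pair.mono {ℓ : ι → ℕ} {X X' Y : Finset (ι → ℕ)} (h : Pair ℓ X Y) (hX : X' ⊆ X) :
    Pair ℓ X' Y :=
  ⟨fun x hx => h.lX x (hX hx), h.lY, fun x hx => h.anti x (hX hx), fun x hx => h.cov x (hX hx)⟩

theorem Pair.sub {ℓ : ι → ℕ} {X Y : Finset (ι → ℕ)} (h : Pair ℓ X Y) (z : ι → ℕ) (hz : ℓ ≤ z) :
    Pair z (X.filter (z ≤ ·)) (Y.filter (z ≤ ·)) := by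
  refine ⟨fun x hx => (mem_filter.1 hx).2, fun x hx => (mem_filter.1 hx).2,
    fun x hx y hy => h.anti x (mem_filter.1 hx).1 y (mem_filter.1 hy).1, fun x hx j hj => ?_⟩
  obtain ⟨hx1, hx2⟩ := mem_filter.1 hx
  obtain ⟨y, hy, h1, h2⟩ := h.cov x hx1 j (lt_of_le_of_lt (hz j) hj)
  refine ⟨y, mem_filter.2 ⟨hy, fun i => ?_⟩, h1, h2⟩
  show z i ≤ y i
  by_cases hi : i = j
  · rw [hi]
    omega
  · exact (hx2 i).trans (h1 i hi)

/-- the corner of `Y` -/
noncomputable def corner (Y : Finset (ι → ℕ)) (hY : Y.Nonempty) : ι → ℕ := fun j => Y.inf' hY (· j)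

theorem corner_le {Y : Finset (ι → ℕ)} (hY : Y.Nonempty) {y : ι → ℕ} (hy : y ∈ Y) :
    corner Y hY ≤ y := fun j => Finset.inf'_le (fun y : ι → ℕ => y j) hy

theorem exists_corner {Y : Finset (ι → ℕ)} (hY : Y.Nonempty) (j : ι) :
    ∃ y ∈ Y, y j = corner Y hY j := by
  obtain ⟨y, hy, h⟩ := Finset.exists_mem_eq_inf' hY (fun y : ι → ℕ => y j)
  exact ⟨y, hy, h.symm⟩

theorem Pair.le_corner {ℓ : ι → ℕ} {X Y : Finset (ι → ℕ)} (h : Pair ℓ X Y) (hY : Y.Nonempty) :
    ℓ ≤ corner Y hY := fun j => Finset.le_inf' _ _ fun y hy => h.lY y hy j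

theorem Pair.low {ℓ : ι → ℕ} {X Y : Finset (ι → ℕ)} (h : Pair ℓ X Y) (hY : Y.Nonempty)
    {x : ι → ℕ} (hx : x ∈ X) (j : ι) (hj : x j ≤ corner Y hY j) : x j = ℓ j := by
  by_contra hne
  have h1 : ℓ j < x j := lt_of_le_of_ne (h.lX x hx j) (Ne.symm hne)
  obtain ⟨y, hy, h2, h3⟩ := h.cov x hx j h1
  apply h.anti x hx y hy
  intro i
  by_cases hi : i = j
  · subst hi
    exact hj.trans (corner_le hY hy i)
  · exact h2 i hi

theorem Pair.injOn {ℓ : ι → ℕ} {X Y : Finset (ι → ℕ)} (h : Pair ℓ X Y) (hY : Y.Nonempty) :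
    Set.InjOn (fun x => x ⊔ corner Y hY) (X : Set (ι → ℕ)) := by
  intro x hx x' hx' hxx
  funext j
  have h1 : x j ⊔ corner Y hY j = x' j ⊔ corner Y hY j := congrFun hxx j
  by_cases h2 : x j ≤ corner Y hY j
  · rw [sup_eq_right.2 h2] at h1
    have h3 : x' j ≤ corner Y hY j := by rw [h1]; exact le_sup_left
    rw [h.low hY hx j h2, h.low hY hx' j h3]
  · push Not at h2
    rw [sup_eq_left.2 h2.le] at h1
    by_cases h3 : x' j ≤ corner Y hY j
    · rw [sup_eq_right.2 h3] at h1
      omega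
    · push Not at h3
      rw [sup_eq_left.2 h3.le] at h1
      exact h1

theorem Pair.compress {ℓ : ι → ℕ} {X Y : Finset (ι → ℕ)} (h : Pair ℓ X Y) (hY : Y.Nonempty) :
    Pair (corner Y hY) (X.image fun x => x ⊔ corner Y hY) Y := by
  refine ⟨?_, fun y hy => corner_le hY hy, ?_, ?_⟩
  · intro x hx
    obtain ⟨x', -, rfl⟩ := mem_image.1 hx
    exact le_sup_right
  · intro x hx y hy hle
    obtain ⟨x', hx', rfl⟩ := mem_image.1 hx
    exact h.anti x' hx' y hy (le_sup_left.trans hle)
  · intro x hx j hj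
    obtain ⟨x', hx', rfl⟩ := mem_image.1 hx
    have h1 : corner Y hY j < x' j := by
      have : corner Y hY j < x' j ⊔ corner Y hY j := hj
      rcases lt_sup_iff.1 this with h2 | h2
      · exact h2
      · exact absurd h2 (lt_irrefl _)
    obtain ⟨y, hy, h2, h3⟩ := h.cov x' hx' j (lt_of_le_of_lt (h.le_corner hY j) h1)
    refine ⟨y, hy, fun i hi => ?_, ?_⟩
    · exact sup_le (h2 i hi) (corner_le hY hy i)
    · exact sup_le h3 ((corner_le hY hy j).trans (Nat.le_succ _))

/-- above a point different from the corner there are fewer points of `Y` -/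
theorem card_filter_lt {ℓ : ι → ℕ} {Y : Finset (ι → ℕ)} (hc : ∀ j, ∃ y ∈ Y, y j = ℓ j)
    {z : ι → ℕ} (hz : ℓ ≤ z) (hne : z ≠ ℓ) : (Y.filter (z ≤ ·)).card < Y.card := by
  obtain ⟨j, hj⟩ : ∃ j, ℓ j < z j := by
    by_contra hcon
    push Not at hcon
    exact hne (le_antisymm hcon hz)
  obtain ⟨y, hy, hyj⟩ := hc j
  apply Finset.card_lt_card
  refine ⟨filter_subset _ _, fun hsub => ?_⟩
  have h1 : z j ≤ y j := (mem_filter.1 (hsub hy)).2 j
  omega

/-- points on the same line in direction `j` coincide -/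
theorem Pair.line {ℓ : ι → ℕ} {X Y : Finset (ι → ℕ)} (h : Pair ℓ X Y) {x x' : ι → ℕ}
    (hx : x ∈ X) (hx' : x' ∈ X) (j : ι) (hxx : ∀ i, i ≠ j → x i = x' i) : x = x' := by
  have key : ∀ x ∈ X, ∀ x' ∈ X, (∀ i, i ≠ j → x i = x' i) → ¬ x j < x' j := by
    intro x hx x' hx' hxx hlt
    obtain ⟨y, hy, h2, h3⟩ := h.cov x' hx' j (lt_of_le_of_lt (h.lX x hx j) hlt)
    apply h.anti x hx y hy
    intro i
    show x i ≤ y i
    by_cases hi : i = j
    · rw [hi]; omega
    · rw [hxx i hi]; exact h2 i hi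
  funext i
  by_cases hi : i = j
  · subst hi
    have h1 := key x hx x' hx' hxx
    have h2 := key x' hx' x hx (fun i hi => (hxx i hi).symm)
    omega
  · exact hxx i hi

/-- number of steps from `ℓ` to `x` -/
def steps (ℓ x : ι → ℕ) : ℕ := ∑ j, (x j - ℓ j)

/-- points at distance at most two from the corner -/
theorem card_near (ℓ : ι → ℕ) (X : Finset (ι → ℕ)) (hX : ∀ x ∈ X, ℓ ≤ x ∧ steps ℓ x ≤ 2) :
    X.card ≤ (Fintype.card ι + 1) ^ 2 := by
  let δ : Option ι → (ι → ℕ) := fun o => match o with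
    | none => 0
    | some j => Pi.single j 1
  have hsub : X ⊆ (Finset.univ : Finset (Option ι × Option ι)).image
      (fun p => ℓ + δ p.1 + δ p.2) := by
    intro x hx
    obtain ⟨h1, h2⟩ := hX x hx
    rw [mem_image]
    have hkey : ∀ (N : ℕ) (u : ι → ℕ), ∑ j, u j = N → N ≤ 2 →
        ∃ p : Option ι × Option ι, u = δ p.1 + δ p.2 := by
      intro N u hu hN
      by_cases hu0 : u = 0
      · exact ⟨(none, none), by simp [δ, hu0]⟩
      · obtain ⟨j, hj⟩ : ∃ j, u j ≠ 0 := by
          by_contra hcon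
          push Not at hcon
          exact hu0 (funext hcon)
        set u' := u - Pi.single j 1 with hu'
        have hle : Pi.single j 1 ≤ u := by
          intro i
          by_cases hi : i = j
          · subst hi; simp; omega
          · simp [Pi.single_apply, hi]
        have huu : u = u' + Pi.single j 1 := by rw [hu', tsub_add_cancel_of_le hle]
        have hsum : ∑ i, u i = ∑ i, u' i + 1 := by
          conv_lhs => rw [huu]
          simp [Finset.sum_add_distrib]
        by_cases hu0' : u' = 0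
        · exact ⟨(some j, none), by rw [huu, hu0']; simp [δ]⟩
        · obtain ⟨k, hk⟩ : ∃ k, u' k ≠ 0 := by
            by_contra hcon
            push Not at hcon
            exact hu0' (funext hcon)
          have hle' : Pi.single k 1 ≤ u' := by
            intro i
            by_cases hi : i = k
            · subst hi; simp; omega
            · simp [Pi.single_apply, hi]
          have hcase : u' = Pi.single k 1 := by
            set u'' := u' - Pi.single k 1 with hu''
            have huu' : u' = u'' + Pi.single k 1 := by rw [hu'', tsub_add_cancel_of_le hle']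
            have hsum' : ∑ i, u' i = ∑ i, u'' i + 1 := by
              conv_lhs => rw [huu']
              simp [Finset.sum_add_distrib]
            have h0 : ∑ i, u'' i = 0 := by omega
            have h00 : u'' = 0 := by
              funext i
              exact (Finset.sum_eq_zero_iff.1 h0) i (mem_univ i)
            rw [huu', h00, zero_add]
          exact ⟨(some k, some j), by rw [huu, hcase]⟩
    obtain ⟨p, hp⟩ := hkey _ (x - ℓ) rfl h2
    refine ⟨p, mem_univ _, ?_⟩
    show ℓ + δ p.1 + δ p.2 = x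
    rw [add_assoc, ← hp]
    exact add_tsub_cancel_of_le h1
  refine (card_le_card hsub).trans (card_image_le.trans ?_)
  rw [card_univ, Fintype.card_prod, Fintype.card_option, sq]

theorem Pair.card_axis {ℓ : ι → ℕ} {X Y : Finset (ι → ℕ)} (h : Pair ℓ X Y)
    (X' : Finset (ι → ℕ)) (hX : X' ⊆ X) (hax : ∀ x ∈ X', ∃ j, ∀ i, i ≠ j → x i = ℓ i) :
    X'.card ≤ Fintype.card ι := by
  classical
  by_cases hι : IsEmpty ι
  · rcases X'.eq_empty_or_nonempty with h0 | ⟨x, hx⟩
    · rw [h0]; simp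
    · obtain ⟨j, -⟩ := hax x hx
      exact (hι.false j).elim
  · rw [not_isEmpty_iff] at hι
    have : ∀ x : ι → ℕ, ∃ j, x ∈ X' → ∀ i, i ≠ j → x i = ℓ i := by
      intro x
      by_cases hx : x ∈ X'
      · obtain ⟨j, hj⟩ := hax x hx
        exact ⟨j, fun _ => hj⟩
      · exact ⟨Classical.arbitrary ι, fun h => absurd h hx⟩
    choose f hf using this
    rw [← card_univ]
    refine card_le_card_of_injOn f (fun _ _ => mem_coe.2 (mem_univ _)) ?_
    intro x hx x' hx' hff
    exact h.line (hX hx) (hX hx') (f x) fun i hi => by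
      rw [hf x hx i hi, hf x' hx' i (by rw [← hff]; exact hi)]

theorem sum_Ioc_sub (w : ℕ → ℝ) {a b : ℕ} (h : a ≤ b) :
    ∑ v ∈ Ioc a b, (w v - w (v - 1)) = w b - w a := by
  induction b, h using Nat.le_induction with
  | base => simp
  | succ n hn ih =>
    rw [← Finset.insert_Ioc_right_eq_Ioc_add_one hn, sum_insert (by simp), ih]
    simp

end Pool.Agent.R559.Dual
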