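import Pool.Agent.R559.DualProd

set_option autoImplicit false
set_option linter.unusedSectionVars false
set_option linter.unusedSimpArgs false

/-!
# The dual bound for sums of products
-/

namespace Pool.Agent.R559.Dual

open Finset Classical

variable {ι : Type*} [Fintype ι] {κ : Type*} [Fintype κ]

/-- a sum of products -/
noncomputable def SP (a : κ → ℝ) (φ : κ → ι → ℕ → ℝ) (x : ι → ℕ) : ℝ :=
  ∑ h, a h * ∏ j, φ h j (x j)

theorem SP_mass (a : κ → ℝ) (ha : ∀ h, 0 ≤ a h) (φ : κ → ι → ℕ → ℝ) (hφ : ∀ h j, Fac (φ h j)) :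
    Mass (SP a φ) fun ℓ z => ∑ h, massP (a h) (φ h) ℓ z := by
  refine ⟨fun ℓ z _ => sum_nonneg fun h _ =>
    massP_nonneg (ha h) (fun j => (hφ h j).nonneg) (fun j => (hφ h j).mono) _ _, ?_⟩
  intro ℓ x hx
  rw [sum_comm]
  unfold SP
  rw [← sum_sub_distrib]
  exact sum_congr rfl fun h _ => massP_sum_erase (a h) (φ h) hx

theorem bad_card (a : κ → ℝ) (ha : ∀ h, 0 ≤ a h) (φ : κ → ι → ℕ → ℝ) (hφ : ∀ h j, Fac (φ h j))
    (t : ℝ) (M : ℕ) (hM : 2 ≤ M) (ℓ : ι → ℕ) (X Y : Finset (ι → ℕ)) (hP : Pair ℓ X Y)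
    (hY : Y.Nonempty) (hYM : Y.card ≤ M) (hYt : ∀ y ∈ Y, SP a φ y ≤ t) :
    (X.filter fun x => (t - SP a φ ℓ) / M < ∑ h, massP (a h) (φ h) ℓ x).card ≤
      Fintype.card ι + Fintype.card κ *
        (Fintype.card ι * (2 * M ^ 3 * Fintype.card κ ^ 2) + C0 (Fintype.card ι) * M ^ 4) := by
  set s : ℝ := t - SP a φ ℓ with hs
  have hG := SP_mass a ha φ hφ
  have hs0 : 0 ≤ s := by
    obtain ⟨y, hy⟩ := hY
    have h1 := hG.mono (hP.lY y hy)
    have h2 := hYt y hy
    linarith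
  have hM0 : (0 : ℝ) < M := by
    have : 0 < M := by omega
    exact_mod_cast this
  have hM1 : (1 : ℝ) ≤ M := by
    have : 1 ≤ M := by omega
    exact_mod_cast this
  set r := Fintype.card κ with hr
  set ε : ℝ := 1 / (M * r) with hε
  set B := X.filter fun x => s / M < ∑ h, massP (a h) (φ h) ℓ x with hB
  rcases Nat.eq_zero_or_pos r with hr0 | hr0
  · have : B = ∅ := by
      rw [hB, filter_eq_empty_iff]
      intro x hx
      have : IsEmpty κ := Fintype.card_eq_zero_iff.1 hr0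
      simp only [univ_eq_empty, sum_empty, not_lt]
      positivity
    rw [this]
    simp
  have hrR : (1 : ℝ) ≤ r := by exact_mod_cast hr0
  have hMr : 0 < (M : ℝ) * r := by positivity
  have hε0 : 0 < ε := by positivity
  have hε1 : ε ≤ 1 := by
    rw [hε, div_le_one hMr]
    nlinarith
  set Ax := X.filter (fun x => ∃ j, ∀ i, i ≠ j → x i = ℓ i) with hAx
  set Fl : κ → ι → Finset (ι → ℕ) := fun h j => X.filter (fun x => (∃ i, i ≠ j ∧ ℓ i < x i) ∧
    ℓ j < x j ∧ ε * s < massP (a h) (φ h) ℓ x ∧ ε / 2 * φ h j (x j) ≤ φ h j (x j - 1)) with hFl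
  set St : κ → Finset (ι → ℕ) := fun h => X.filter (fun x => ε * s < massP (a h) (φ h) ℓ x ∧
    ∀ j, ℓ j < x j → φ h j (x j - 1) < ε / 2 * φ h j (x j)) with hSt
  have hFs : ∀ h, ∀ y ∈ Y, a h * ∏ j, φ h j (y j) - a h * ∏ j, φ h j (ℓ j) ≤ s := by
    intro h y hy
    have h1 : ∀ h' ∈ (univ : Finset κ), 0 ≤ a h' * ∏ j, φ h' j (y j) - a h' * ∏ j, φ h' j (ℓ j) := by
      intro h' _
      refine sub_nonneg.2 (mul_le_mul_of_nonneg_left (prod_le_prod (fun j _ => (hφ h' j).nonneg _)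
        fun j _ => (hφ h' j).mono (hP.lY y hy j)) (ha h'))
    have h2 := single_le_sum h1 (mem_univ h)
    rw [sum_sub_distrib] at h2
    have h3 := hYt y hy
    unfold SP at h3 hs
    linarith
  have hsub : B ⊆ Ax ∪ (univ : Finset κ).biUnion
      (fun h => (univ : Finset ι).biUnion (Fl h) ∪ St h) := by
    intro x hx
    obtain ⟨hxX, hx2⟩ := mem_filter.1 hx
    by_cases hax : ∃ j, ∀ i, i ≠ j → x i = ℓ i
    · exact mem_union_left _ (mem_filter.2 ⟨hxX, hax⟩)
    · apply mem_union_right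
      obtain ⟨h, hh⟩ : ∃ h, ε * s < massP (a h) (φ h) ℓ x := by
        by_contra hcon
        push Not at hcon
        have h1 : ∑ h, massP (a h) (φ h) ℓ x ≤ ∑ _h : κ, ε * s := sum_le_sum fun h _ => hcon h
        rw [sum_const, card_univ, nsmul_eq_mul] at h1
        have h2 : (Fintype.card κ : ℝ) * (ε * s) = s / M := by
          rw [hε, ← hr]
          field_simp
        rw [h2] at h1
        exact absurd hx2 (not_lt.2 h1)
      refine mem_biUnion.2 ⟨h, mem_univ h, ?_⟩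
      by_cases hfl : ∃ j, ℓ j < x j ∧ ε / 2 * φ h j (x j) ≤ φ h j (x j - 1)
      · obtain ⟨j, h1, h2⟩ := hfl
        refine mem_union_left _ (mem_biUnion.2 ⟨j, mem_univ j, mem_filter.2 ⟨hxX, ?_, h1, hh, h2⟩⟩)
        push Not at hax
        obtain ⟨i, hi, hi2⟩ := hax j
        exact ⟨i, hi, lt_of_le_of_ne (hP.lX x hxX i) (Ne.symm hi2)⟩
      · push Not at hfl
        exact mem_union_right _ (mem_filter.2 ⟨hxX, hh, hfl⟩)
  have hcAx : Ax.card ≤ Fintype.card ι :=
    hP.card_axis Ax (filter_subset _ _) fun x hx => (mem_filter.1 hx).2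
  have hcFl : ∀ h j, (Fl h j).card ≤ 2 * M ^ 3 * r ^ 2 := by
    intro h j
    have h1 := flat_card hP (fun z => massP (a h) (φ h) ℓ z)
      (fun z _ => massP_nonneg (ha h) (fun j => (hφ h j).nonneg) (fun j => (hφ h j).mono) _ _)
      s (ε / 2 * ε) hs0 ?_ j (Fl h j) (filter_subset _ _) (fun x hx => (mem_filter.1 hx).2.1)
      (fun x hx => (mem_filter.1 hx).2.2.1) ?_
    · have h2 : ((Fl h j).card : ℝ) * (ε / 2 * ε) ≤ M :=
        h1.trans (by exact_mod_cast hYM)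
      have h3 : ε / 2 * ε = 1 / (2 * M ^ 2 * r ^ 2) := by
        rw [hε]
        field_simp
      rw [h3, mul_one_div, div_le_iff₀ (by positivity)] at h2
      have h4 : ((Fl h j).card : ℝ) ≤ ((2 * M ^ 3 * r ^ 2 : ℕ) : ℝ) := by
        push_cast
        linarith
      exact_mod_cast h4
    · intro y hy
      rw [massP_sum_erase (a h) (φ h) (hP.lY y hy)]
      exact hFs h y hy
    · intro x hx
      obtain ⟨hxX, -, hxj, hxm, hxf⟩ := mem_filter.1 hx
      rw [massP_fibre (a h) (φ h) j hxj]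
      rw [massP_eq (a h) (φ h) ℓ x j] at hxm
      have h5 : 0 ≤ ∏ i ∈ univ.erase j, D (φ h i) (ℓ i) (x i) :=
        prod_nonneg fun i _ => D_nonneg (hφ h i).nonneg (hφ h i).mono _ _
      have h6 : D (φ h j) (ℓ j) (x j) ≤ φ h j (x j) := D_le (hφ h j).nonneg _ _
      have h7 : ε / 2 * D (φ h j) (ℓ j) (x j) ≤ φ h j (x j - 1) :=
        (mul_le_mul_of_nonneg_left h6 (by positivity)).trans hxf
      calc ε / 2 * ε * s = ε / 2 * (ε * s) := by ring
        _ < ε / 2 * (a h * ((∏ i ∈ univ.erase j, D (φ h i) (ℓ i) (x i)) *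
            D (φ h j) (ℓ j) (x j))) := mul_lt_mul_of_pos_left hxm (by positivity)
        _ = a h * ((∏ i ∈ univ.erase j, D (φ h i) (ℓ i) (x i)) *
            (ε / 2 * D (φ h j) (ℓ j) (x j))) := by ring
        _ ≤ _ := mul_le_mul_of_nonneg_left (mul_le_mul_of_nonneg_left h7 h5) (ha h)
  have hcSt : ∀ h, (St h).card ≤ C0 (Fintype.card ι) * M ^ 4 := by
    intro h
    have h1 := steep_card hP hY (a h) (φ h) (ha h) (hφ h) s ε hs0 hε0 hε1
      (fun y hy => by have := hFs h y hy; linarith) (St h) (filter_subset _ _)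
      (fun x hx => (mem_filter.1 hx).2.1) (fun x hx => (mem_filter.1 hx).2.2)
    exact h1.trans (Nat.mul_le_mul_left _ (Nat.pow_le_pow_left hYM 4))
  calc B.card ≤ _ := card_le_card hsub
    _ ≤ Ax.card + ((univ : Finset κ).biUnion
      (fun h => (univ : Finset ι).biUnion (Fl h) ∪ St h)).card := card_union_le _ _
    _ ≤ Fintype.card ι + ∑ h : κ, ((univ : Finset ι).biUnion (Fl h) ∪ St h).card :=
      Nat.add_le_add hcAx card_biUnion_le
    _ ≤ Fintype.card ι + ∑ _h : κ,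
        (Fintype.card ι * (2 * M ^ 3 * r ^ 2) + C0 (Fintype.card ι) * M ^ 4) := by
      refine Nat.add_le_add_left (sum_le_sum fun h _ => ?_) _
      refine (card_union_le _ _).trans (Nat.add_le_add ?_ (hcSt h))
      calc _ ≤ ∑ j : ι, (Fl h j).card := card_biUnion_le
        _ ≤ ∑ _j : ι, 2 * M ^ 3 * r ^ 2 := sum_le_sum fun j _ => hcFl h j
        _ = _ := by rw [sum_const, card_univ, smul_eq_mul]
    _ = _ := by rw [sum_const, card_univ, smul_eq_mul]

/-- The dual bound for sums of products. -/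
theorem dual_SP (a : κ → ℝ) (ha : ∀ h, 0 ≤ a h) (φ : κ → ι → ℕ → ℝ) (hφ : ∀ h j, Fac (φ h j))
    (t : ℝ) (c : ι → ℕ) (ℓ : ι → ℕ) (X Y : Finset (ι → ℕ)) (hP : Pair ℓ X Y)
    (hY : Y.Nonempty) (hX : ∀ x ∈ X, t < SP a φ x ∧ x ≤ c) (hYt : ∀ y ∈ Y, SP a φ y ≤ t ∧ y ≤ c) :
    X.card ≤ (Fintype.card ι + Fintype.card κ *
        (Fintype.card ι * (2 * (Y.card + 1) ^ 3 * Fintype.card κ ^ 2) +
          C0 (Fintype.card ι) * (Y.card + 1) ^ 4)) * Y.card ^ 3 := by
  have hY1 : 1 ≤ Y.card := card_pos.2 hY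
  refine average (SP a φ) _ (SP_mass a ha φ hφ) t c (Y.card + 1) _ (by omega) ?_ Y.card ℓ X Y hP
    rfl hY (by omega) hX hYt
  intro ℓ' X' Y' hP' hY' hYM' _ _ hYt'
  exact bad_card a ha φ hφ t (Y.card + 1) (by omega) ℓ' X' Y' hP' hY' hYM'
    fun y hy => (hYt' y hy).1

/-- powers are allowed factors -/
theorem Fac.pow (d : ℕ) (hd : 1 ≤ d) : Fac fun v => (v : ℝ) ^ d where
  nonneg v := by positivity
  mono u v h := by
    have : (u : ℝ) ≤ v := by exact_mod_cast h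
    exact pow_le_pow_left₀ (Nat.cast_nonneg _) this d
  pos v hv := by
    have : (0 : ℝ) < v := by exact_mod_cast hv
    positivity
  lc u v hu huv := by
    show ((u - 1 : ℕ) : ℝ) ^ d * (v : ℝ) ^ d ≤ (u : ℝ) ^ d * ((v - 1 : ℕ) : ℝ) ^ d
    rw [← mul_pow, ← mul_pow]
    apply pow_le_pow_left₀ (by positivity)
    have h : (u - 1) * v ≤ u * (v - 1) := by
      obtain ⟨u', rfl⟩ : ∃ u', u = u' + 1 := ⟨u - 1, by omega⟩
      obtain ⟨v', rfl⟩ : ∃ v', v = v' + 1 := ⟨v - 1, by omega⟩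
      simp only [Nat.add_sub_cancel]
      nlinarith
    exact_mod_cast h

/-- constants are allowed factors -/
theorem Fac.one : Fac fun _ => (1 : ℝ) where
  nonneg _ := by norm_num
  mono _ _ _ := le_rfl
  pos _ _ := by norm_num
  lc _ _ _ _ := le_rfl

end Pool.Agent.R559.Dual
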