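import Pool.Agent.R559.DualAverage

set_option autoImplicit false
set_option linter.unusedSectionVars false
set_option linter.unusedSimpArgs false

/-!
# Product functions: masses, flat and steep points
-/

namespace Pool.Agent.R559.Dual

open Finset Classical

variable {ι : Type*} [Fintype ι]

/-- the increments of `φ` above `ℓ` -/
noncomputable def D (φ : ℕ → ℝ) (ℓ v : ℕ) : ℝ := if v = ℓ then φ ℓ else φ v - φ (v - 1)

theorem D_nonneg {φ : ℕ → ℝ} (h0 : ∀ v, 0 ≤ φ v) (hm : Monotone φ) (ℓ v : ℕ) : 0 ≤ D φ ℓ v := by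
  unfold D
  split_ifs
  · exact h0 _
  · exact sub_nonneg.2 (hm (Nat.sub_le _ _))

theorem D_le {φ : ℕ → ℝ} (h0 : ∀ v, 0 ≤ φ v) (ℓ v : ℕ) : D φ ℓ v ≤ φ v := by
  unfold D
  split_ifs with h
  · rw [h]
  · have := h0 (v - 1)
    linarith

theorem sum_D (φ : ℕ → ℝ) {ℓ x : ℕ} (h : ℓ ≤ x) : ∑ v ∈ Icc ℓ x, D φ ℓ v = φ x := by
  induction x, h using Nat.le_induction with
  | base => simp [D]
  | succ n hn ih =>
    rw [← Finset.insert_Icc_right_eq_Icc_add_one (by omega), sum_insert (by simp), ih]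
    unfold D
    rw [if_neg (by omega)]
    simp

theorem sum_D_Ico (φ : ℕ → ℝ) {ℓ x : ℕ} (h : ℓ < x) : ∑ v ∈ Ico ℓ x, D φ ℓ v = φ (x - 1) := by
  have h1 : Ico ℓ x = Icc ℓ (x - 1) := by
    ext v
    rw [mem_Ico, mem_Icc]
    omega
  rw [h1, sum_D φ (by omega)]

/-- the mass function of the product function `a ∏ φ j` -/
noncomputable def massP (a : ℝ) (φ : ι → ℕ → ℝ) (ℓ z : ι → ℕ) : ℝ :=
  a * ∏ j, D (φ j) (ℓ j) (z j)

theorem massP_sum (a : ℝ) (φ : ι → ℕ → ℝ) {ℓ x : ι → ℕ} (h : ℓ ≤ x) :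
    ∑ z ∈ box ℓ x, massP a φ ℓ z = a * ∏ j, φ j (x j) := by
  unfold massP box
  rw [← mul_sum]
  congr 1
  rw [← prod_univ_sum]
  exact prod_congr rfl fun j _ => sum_D (φ j) (h j)

theorem massP_self (a : ℝ) (φ : ι → ℕ → ℝ) (ℓ : ι → ℕ) :
    massP a φ ℓ ℓ = a * ∏ j, φ j (ℓ j) := by
  unfold massP D
  simp

theorem massP_sum_erase (a : ℝ) (φ : ι → ℕ → ℝ) {ℓ x : ι → ℕ} (h : ℓ ≤ x) :
    ∑ z ∈ (box ℓ x).erase ℓ, massP a φ ℓ z = a * ∏ j, φ j (x j) - a * ∏ j, φ j (ℓ j) := by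
  have h1 := sum_erase_add (box ℓ x) (massP a φ ℓ) (mem_box.2 ⟨le_rfl, h⟩)
  rw [massP_sum a φ h, massP_self] at h1
  linarith

theorem massP_nonneg {a : ℝ} (ha : 0 ≤ a) {φ : ι → ℕ → ℝ} (h0 : ∀ j v, 0 ≤ φ j v)
    (hm : ∀ j, Monotone (φ j)) (ℓ z : ι → ℕ) : 0 ≤ massP a φ ℓ z :=
  mul_nonneg ha (prod_nonneg fun j _ => D_nonneg (h0 j) (hm j) _ _)

theorem massP_le {a : ℝ} (ha : 0 ≤ a) {φ : ι → ℕ → ℝ} (h0 : ∀ j v, 0 ≤ φ j v)
    (hm : ∀ j, Monotone (φ j)) (ℓ z : ι → ℕ) : massP a φ ℓ z ≤ a * ∏ j, φ j (z j) :=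
  mul_le_mul_of_nonneg_left (prod_le_prod (fun j _ => D_nonneg (h0 j) (hm j) _ _)
    fun j _ => D_le (h0 j) _ _) ha

/-- the mass of the fibre below `x` in direction `j` -/
theorem massP_fibre (a : ℝ) (φ : ι → ℕ → ℝ) {ℓ x : ι → ℕ} (j : ι) (h : ℓ j < x j) :
    ∑ v ∈ Ico (ℓ j) (x j), massP a φ ℓ (Function.update x j v) =
      a * ((∏ i ∈ univ.erase j, D (φ i) (ℓ i) (x i)) * φ j (x j - 1)) := by
  have h1 : ∀ v, massP a φ ℓ (Function.update x j v) =
      a * ((∏ i ∈ univ.erase j, D (φ i) (ℓ i) (x i)) * D (φ j) (ℓ j) v) := by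
    intro v
    unfold massP
    rw [← prod_erase_mul univ _ (mem_univ j)]
    simp only [Function.update_self]
    congr 2
    refine prod_congr rfl fun i hi => ?_
    rw [Function.update_of_ne (mem_erase.1 hi).1]
  simp only [h1]
  rw [← mul_sum, ← mul_sum, sum_D_Ico (φ j) h]

theorem massP_eq (a : ℝ) (φ : ι → ℕ → ℝ) (ℓ x : ι → ℕ) (j : ι) :
    massP a φ ℓ x = a * ((∏ i ∈ univ.erase j, D (φ i) (ℓ i) (x i)) * D (φ j) (ℓ j) (x j)) := by
  unfold massP
  rw [← prod_erase_mul univ _ (mem_univ j)]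

/-- The number of points with large mass in the fibre below is small. -/
theorem flat_card {ℓ : ι → ℕ} {X Y : Finset (ι → ℕ)} (hP : Pair ℓ X Y) (mu : (ι → ℕ) → ℝ)
    (hmu : ∀ z, ℓ ≤ z → 0 ≤ mu z) (s η : ℝ) (hs : 0 ≤ s)
    (hY : ∀ y ∈ Y, ∑ z ∈ (box ℓ y).erase ℓ, mu z ≤ s) (j : ι) (X' : Finset (ι → ℕ))
    (hX' : X' ⊆ X) (hax : ∀ x ∈ X', ∃ i, i ≠ j ∧ ℓ i < x i) (hj : ∀ x ∈ X', ℓ j < x j)
    (hf : ∀ x ∈ X', η * s < ∑ v ∈ Ico (ℓ j) (x j), mu (Function.update x j v)) :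
    (X'.card : ℝ) * η ≤ Y.card := by
  rcases X'.eq_empty_or_nonempty with h0 | hne
  · rw [h0]; simp
  have h1 : (X'.card : ℝ) * (η * s) < ∑ x ∈ X', ∑ v ∈ Ico (ℓ j) (x j),
      mu (Function.update x j v) := by
    rw [← nsmul_eq_mul, ← sum_const]
    exact sum_lt_sum_of_nonempty hne hf
  set S := X'.sigma fun x => Ico (ℓ j) (x j) with hS
  set f : (Σ _ : ι → ℕ, ℕ) → (ι → ℕ) := fun p => Function.update p.1 j p.2 with hfd
  have hinj : Set.InjOn f (S : Set (Σ _ : ι → ℕ, ℕ)) := by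
    rintro ⟨x, v⟩ hp ⟨x', v'⟩ hp' hff
    obtain ⟨hx, hv⟩ := mem_sigma.1 (mem_coe.1 hp)
    obtain ⟨hx', hv'⟩ := mem_sigma.1 (mem_coe.1 hp')
    have h2 : v = v' := by
      have := congrFun hff j
      simpa [hfd] using this
    have h3 : x = x' := by
      refine hP.line (hX' hx) (hX' hx') j fun i hi => ?_
      have := congrFun hff i
      simpa [hfd, hi] using this
    subst h2 h3
    rfl
  have h2 : ∑ x ∈ X', ∑ v ∈ Ico (ℓ j) (x j), mu (Function.update x j v) =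
      ∑ z ∈ S.image f, mu z := by
    rw [sum_image hinj, hS, sum_sigma]
  have hsub : ∀ z ∈ S.image f, ∃ y ∈ Y, z ∈ (box ℓ y).erase ℓ := by
    intro z hz
    obtain ⟨⟨x, v⟩, hp, rfl⟩ := mem_image.1 hz
    obtain ⟨hx, hv⟩ := mem_sigma.1 hp
    have hv' := mem_Ico.1 hv
    obtain ⟨y, hy, h3, h4⟩ := hP.cov x (hX' hx) j (hj x hx)
    have hxℓ := hP.lX x (hX' hx)
    obtain ⟨i, hij, hi⟩ := hax x hx
    refine ⟨y, hy, mem_erase.2 ⟨fun h => ?_, mem_box.2 ⟨fun k => ?_, fun k => ?_⟩⟩⟩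
    · have := congrFun h i
      simp [hfd, hij] at this
      omega
    · by_cases hk : k = j
      · subst hk; simp [hfd]; exact hv'.1
      · simpa [hfd, hk] using hxℓ k
    · by_cases hk : k = j
      · subst hk; simp [hfd]; have := hv'.2; simp at this; omega
      · simpa [hfd, hk] using h3 k hk
  have h3 : ∑ z ∈ S.image f, mu z ≤ ∑ y ∈ Y, ∑ z ∈ (box ℓ y).erase ℓ, mu z := by
    have h4 : ∀ z ∈ S.image f, mu z ≤ ∑ y ∈ Y, if z ∈ (box ℓ y).erase ℓ then mu z else 0 := by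
      intro z hz
      obtain ⟨y, hy, hzy⟩ := hsub z hz
      have h5 : 0 ≤ mu z := hmu z (mem_box.1 (mem_erase.1 hzy).2).1
      have h6 : (if z ∈ (box ℓ y).erase ℓ then mu z else 0) ≤
          ∑ y ∈ Y, if z ∈ (box ℓ y).erase ℓ then mu z else 0 :=
        single_le_sum (f := fun y => if z ∈ (box ℓ y).erase ℓ then mu z else 0)
          (fun y' _ => by
            show 0 ≤ (if z ∈ (box ℓ y').erase ℓ then mu z else 0)
            split_ifs
            · exact h5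
            · exact le_rfl) hy
      rwa [if_pos hzy] at h6
    refine (sum_le_sum h4).trans ?_
    rw [sum_comm]
    refine sum_le_sum fun y _ => ?_
    rw [← sum_filter]
    refine sum_le_sum_of_subset_of_nonneg ?_ ?_
    · intro z hz
      exact (mem_filter.1 hz).2
    · intro z hz _
      exact hmu z (mem_box.1 (mem_erase.1 hz).2).1
  have h4 : ∑ y ∈ Y, ∑ z ∈ (box ℓ y).erase ℓ, mu z ≤ Y.card * s := by
    calc _ ≤ ∑ _y ∈ Y, s := sum_le_sum hY
      _ = _ := by rw [sum_const, nsmul_eq_mul]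
  have h5 : (X'.card : ℝ) * (η * s) < Y.card * s := by
    calc _ < _ := h1
      _ = _ := h2
      _ ≤ _ := h3
      _ ≤ _ := h4
  rcases hs.eq_or_lt with h6 | h6
  · rw [← h6] at h5
    simp at h5
  · have h7 : (X'.card : ℝ) * η * s < Y.card * s := by
      calc (X'.card : ℝ) * η * s = X'.card * (η * s) := by ring
        _ < _ := h5
    exact (lt_of_mul_lt_mul_right h7 h6.le).le

/-- the factors allowed in the product functions -/
structure Fac (φ : ℕ → ℝ) : Prop where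
  nonneg : ∀ v, 0 ≤ φ v
  mono : Monotone φ
  pos : ∀ v, 1 ≤ v → 0 < φ v
  lc : ∀ u v, 1 ≤ u → u ≤ v → φ (u - 1) * φ v ≤ φ u * φ (v - 1)

/-- The number of steep points. -/
theorem steep_card {ℓ : ι → ℕ} {X Y : Finset (ι → ℕ)} (hP : Pair ℓ X Y) (hY : Y.Nonempty) (a : ℝ)
    (φ : ι → ℕ → ℝ) (ha : 0 ≤ a) (hφ : ∀ j, Fac (φ j)) (s ε : ℝ) (hs : 0 ≤ s) (hε : 0 < ε)
    (hε1 : ε ≤ 1) (hYs : ∀ y ∈ Y, a * ∏ j, φ j (y j) ≤ s + a * ∏ j, φ j (ℓ j))
    (X' : Finset (ι → ℕ)) (hX' : X' ⊆ X) (hbad : ∀ x ∈ X', ε * s < massP a φ ℓ x)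
    (hst : ∀ x ∈ X', ∀ j, ℓ j < x j → φ j (x j - 1) < ε / 2 * φ j (x j)) :
    X'.card ≤ C0 (Fintype.card ι) * Y.card ^ 4 := by
  have hY1 : 1 ≤ Y.card := card_pos.2 hY
  have hbig : 1 ≤ C0 (Fintype.card ι) * Y.card ^ 4 := by
    have h1 : 1 ≤ C0 (Fintype.card ι) := by
      unfold C0
      have : 1 ≤ (Fintype.card ι + 1) ^ 2 := Nat.one_le_pow _ _ (by omega)
      omega
    exact Nat.mul_pos h1 (Nat.pow_pos hY1)
  rcases X'.eq_empty_or_nonempty with h0 | ⟨x₁, hx₁⟩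
  · rw [h0]; simp
  have hmpos : ∀ x ∈ X', 0 < massP a φ ℓ x := fun x hx =>
    lt_of_le_of_lt (mul_nonneg hε.le hs) (hbad x hx)
  have hapos : 0 < a := by
    rcases ha.eq_or_lt with h | h
    · have := hmpos x₁ hx₁
      unfold massP at this
      rw [← h] at this
      simp at this
    · exact h
  have hD : ∀ x ∈ X', ∀ j, D (φ j) (ℓ j) (x j) ≠ 0 := by
    intro x hx j h
    have := hmpos x hx
    unfold massP at this
    rw [prod_eq_zero (mem_univ j) h] at this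
    simp at this
  set z : ι → ℕ := fun j => if φ j (ℓ j) = 0 then ℓ j + 1 else ℓ j with hz
  have hℓz : ℓ ≤ z := by
    intro j
    simp only [hz]
    split_ifs <;> omega
  have hzx : ∀ x ∈ X', z ≤ x := by
    intro x hx j
    simp only [hz]
    have h1 : ℓ j ≤ x j := hP.lX x (hX' hx) j
    split_ifs with h2
    · by_contra hcon
      have h3 : x j = ℓ j := by omega
      apply hD x hx j
      unfold D
      rw [if_pos h3, h2]
    · exact h1
  have hpos : ∀ j v, z j ≤ v → 0 < φ j v := by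
    intro j v hv
    simp only [hz] at hv
    split_ifs at hv with h2
    · exact (hφ j).pos v (by omega)
    · exact lt_of_lt_of_le (lt_of_le_of_ne ((hφ j).nonneg _) (Ne.symm h2)) ((hφ j).mono hv)
  have hPz : Pair z X' (Y.filter (z ≤ ·)) := (hP.sub z hℓz).mono fun x hx =>
    mem_filter.2 ⟨hX' hx, hzx x hx⟩
  rcases (Y.filter (z ≤ ·)).eq_empty_or_nonempty with hE | hYz
  · refine le_trans ?_ hbig
    rw [card_le_one]
    have key : ∀ x ∈ X', x = z := by
      intro x hx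
      by_contra hne
      obtain ⟨j, hj⟩ : ∃ j, z j < x j := by
        by_contra hcon
        push Not at hcon
        exact hne (le_antisymm hcon (hzx x hx))
      obtain ⟨y, hy, -⟩ := hPz.cov x hx j hj
      rw [hE] at hy
      simp at hy
    intro x hx x' hx'
    rw [key x hx, key x' hx']
  set τ : ℝ := s + a * ∏ j, φ j (ℓ j) with hτ
  have hFx : ∀ x ∈ X', ε / 2 * τ < a * ∏ j, φ j (x j) := by
    intro x hx
    have h1 : ε * s < a * ∏ j, φ j (x j) :=
      lt_of_lt_of_le (hbad x hx) (massP_le ha (fun j => (hφ j).nonneg) (fun j => (hφ j).mono) _ _)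
    have hne : x ≠ ℓ := by
      rintro rfl
      obtain ⟨y, hy⟩ := hY
      exact hP.anti _ (hX' hx) y hy (hP.lY y hy)
    obtain ⟨j, hj⟩ : ∃ j, ℓ j < x j := by
      by_contra hcon
      push Not at hcon
      exact hne (le_antisymm hcon (hP.lX x (hX' hx)))
    have h2 : ∏ i, φ i (ℓ i) ≤ ε / 2 * ∏ i, φ i (x i) := by
      rw [← prod_erase_mul univ (fun i => φ i (ℓ i)) (mem_univ j),
        ← prod_erase_mul univ (fun i => φ i (x i)) (mem_univ j)]
      have h3 : ∏ i ∈ univ.erase j, φ i (ℓ i) ≤ ∏ i ∈ univ.erase j, φ i (x i) :=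
        prod_le_prod (fun i _ => (hφ i).nonneg _) fun i _ =>
          (hφ i).mono (hP.lX x (hX' hx) i)
      have h4 : φ j (ℓ j) ≤ ε / 2 * φ j (x j) :=
        ((hφ j).mono (by omega : ℓ j ≤ x j - 1)).trans (hst x hx j hj).le
      calc (∏ i ∈ univ.erase j, φ i (ℓ i)) * φ j (ℓ j)
          ≤ (∏ i ∈ univ.erase j, φ i (x i)) * (ε / 2 * φ j (x j)) :=
            mul_le_mul h3 h4 ((hφ j).nonneg _) (prod_nonneg fun i _ => (hφ i).nonneg _)
        _ = _ := by ring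
    have h5 : a * ∏ i, φ i (ℓ i) ≤ ε / 2 * (a * ∏ i, φ i (x i)) := by
      calc a * ∏ i, φ i (ℓ i) ≤ a * (ε / 2 * ∏ i, φ i (x i)) := mul_le_mul_of_nonneg_left h2 ha
        _ = _ := by ring
    have h6 : 0 ≤ a * ∏ i, φ i (x i) := mul_nonneg ha (prod_nonneg fun i _ => (hφ i).nonneg _)
    have h7 : 0 < a * ∏ i, φ i (x i) := lt_of_le_of_lt (mul_nonneg hε.le hs) h1
    have h8 : ε / 2 * (a * ∏ i, φ i (ℓ i)) ≤ ε / 2 * (ε / 2 * (a * ∏ i, φ i (x i))) :=
      mul_le_mul_of_nonneg_left h5 (by positivity)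
    have h9 : ε / 2 * (ε / 2) ≤ 1 / 4 := by nlinarith
    have h10 : ε / 2 * (ε / 2 * (a * ∏ i, φ i (x i))) ≤ 1 / 4 * (a * ∏ i, φ i (x i)) := by
      rw [← mul_assoc]
      exact mul_le_mul_of_nonneg_right h9 h7.le
    have h11 : ε / 2 * τ = ε * s / 2 + ε / 2 * (a * ∏ i, φ i (ℓ i)) := by
      rw [hτ]; ring
    rw [h11]
    linarith
  have hτ0 : 0 < τ := by
    have h1 := hFx x₁ hx₁
    obtain ⟨y, hy⟩ := hYz
    obtain ⟨hy1, hy2⟩ := mem_filter.1 hy
    refine lt_of_lt_of_le ?_ (hYs y hy1)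
    exact mul_pos hapos (prod_pos fun j _ => hpos j _ (hy2 j))
  set w : ι → ℕ → ℝ := fun j v => Real.log (φ j (max v (z j))) with hw
  have hwm : ∀ j, Monotone (w j) := by
    intro j u v huv
    simp only [hw]
    exact Real.log_le_log (hpos j _ (le_max_right _ _)) ((hφ j).mono (max_le_max_right _ huv))
  have hwsum : ∀ x : ι → ℕ, z ≤ x → ∑ j, w j (x j) = Real.log (∏ j, φ j (x j)) := by
    intro x hx
    rw [Real.log_prod (fun j _ => (hpos j _ (hx j)).ne')]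
    refine sum_congr rfl fun j _ => ?_
    simp only [hw]
    rw [max_eq_left (hx j)]
  have hsl := slack w hwm (Real.log (τ / a)) z X' (Y.filter (z ≤ ·)) hPz hYz ?_ ?_
  · refine hsl.trans (Nat.mul_le_mul_left _ (Nat.pow_le_pow_left (card_filter_le _ _) 4))
  · intro y hy
    obtain ⟨hy1, hy2⟩ := mem_filter.1 hy
    rw [hwsum y hy2]
    apply Real.log_le_log (prod_pos fun j _ => hpos j _ (hy2 j))
    rw [le_div_iff₀ hapos, mul_comm]
    exact hYs y hy1
  · intro x hx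
    have hγ : 0 < ε / 2 := by positivity
    refine ⟨Real.log (1 / (ε / 2)), ?_, ?_, ?_⟩
    · apply Real.log_pos
      rw [lt_div_iff₀ hγ]
      linarith
    · rw [hwsum x (hzx x hx)]
      rw [sub_le_iff_le_add, ← Real.log_mul (prod_pos fun j _ => hpos j _ (hzx x hx j)).ne'
        (by positivity)]
      apply Real.log_le_log (div_pos hτ0 hapos)
      have h1 := hFx x hx
      rw [div_le_iff₀ hapos]
      have h2 : (∏ j, φ j (x j)) * (1 / (ε / 2)) * a = (a * ∏ j, φ j (x j)) / (ε / 2) := by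
        field_simp
      rw [h2, le_div_iff₀ hγ]
      linarith
    · intro j u hu hux
      have hℓu : ℓ j < u := lt_of_le_of_lt (hℓz j) hu
      have h1 : ℓ j < x j := lt_of_lt_of_le hℓu hux
      have h2 := hst x hx j h1
      have h3 := (hφ j).lc u (x j) (by omega) hux
      have hpu : 0 < φ j u := hpos j u hu.le
      have hpu1 : 0 < φ j (u - 1) := hpos j (u - 1) (by omega)
      have hpx : 0 < φ j (x j) := hpos j _ (hzx x hx j)
      have h4 : φ j (u - 1) ≤ ε / 2 * φ j u := by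
        have h5 : φ j (u - 1) * φ j (x j) ≤ (ε / 2 * φ j u) * φ j (x j) := by
          calc _ ≤ _ := h3
            _ ≤ φ j u * (ε / 2 * φ j (x j)) := mul_le_mul_of_nonneg_left h2.le hpu.le
            _ = _ := by ring
        exact le_of_mul_le_mul_right h5 hpx
      simp only [hw]
      rw [max_eq_left hu.le, max_eq_left (by omega : z j ≤ u - 1), ← Real.log_div hpu.ne' hpu1.ne']
      apply Real.log_le_log (by positivity)
      rw [div_le_div_iff₀ hγ hpu1]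
      linarith

end Pool.Agent.R559.Dual
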