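import Pool.Agent.R559.DualBasic

set_option autoImplicit false
set_option linter.unusedSectionVars false
set_option linter.unusedSimpArgs false

/-!
# The slack lemma

If a separable monotone function `w` satisfies `w y ≤ T` on `Y` and `w x > T - κ` for the points `x`
of `X`, where `κ` (which may depend on `x`) is at most the size of each step below `x`, then `X` is
not much larger than `Y`.
-/

namespace Pool.Agent.R559.Dual

open Finset Classical

variable {ι : Type*} [Fintype ι]

/-- the hypothesis on the points of `X` -/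
def Steep (w : ι → ℕ → ℝ) (T : ℝ) (ℓ : ι → ℕ) (X : Finset (ι → ℕ)) : Prop :=
  ∀ x ∈ X, ∃ κ : ℝ, 0 < κ ∧ T - κ ≤ ∑ j, w j (x j) ∧
    ∀ j u, ℓ j < u → u ≤ x j → κ ≤ w j u - w j (u - 1)

/-- weight -/
noncomputable def aw (p m : ℕ) : ℝ := 1 / ((min p m : ℕ) : ℝ) ^ 2

theorem aw_nonneg (p m : ℕ) : 0 ≤ aw p m := by unfold aw; positivity

theorem aw_le_one (p m : ℕ) : aw p m ≤ 1 := by
  unfold aw
  rcases Nat.eq_zero_or_pos (min p m) with h | h
  · rw [h]; norm_num
  · have h1 : (1 : ℝ) ≤ ((min p m : ℕ) : ℝ) := by exact_mod_cast h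
    rw [div_le_one (by positivity)]
    nlinarith

theorem aw_anti {p p' m : ℕ} (h1 : 1 ≤ p') (hm : 1 ≤ m) (h : p' ≤ p) : aw p m ≤ aw p' m := by
  unfold aw
  have h2 : 1 ≤ min p' m := le_min h1 hm
  have h3 : min p' m ≤ min p m := min_le_min_right _ h
  have h4 : (1 : ℝ) ≤ ((min p' m : ℕ) : ℝ) := by exact_mod_cast h2
  have h5 : ((min p' m : ℕ) : ℝ) ≤ ((min p m : ℕ) : ℝ) := by exact_mod_cast h3
  apply one_div_le_one_div_of_le (by positivity)
  gcongr

theorem steps_pos {ℓ x : ι → ℕ} (h : ℓ ≤ x) (hne : x ≠ ℓ) : 1 ≤ steps ℓ x := by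
  by_contra hcon
  have h0 : steps ℓ x = 0 := by omega
  apply hne
  funext j
  have h1 : x j - ℓ j = 0 := (Finset.sum_eq_zero_iff.1 h0) j (mem_univ j)
  have h2 : ℓ j ≤ x j := h j
  omega

theorem steep_total {w : ι → ℕ → ℝ} {ℓ x : ι → ℕ} {κ : ℝ} (hℓ : ℓ ≤ x)
    (h : ∀ j u, ℓ j < u → u ≤ x j → κ ≤ w j u - w j (u - 1)) :
    κ * steps ℓ x ≤ ∑ j, (w j (x j) - w j (ℓ j)) := by
  unfold steps
  push_cast
  rw [mul_sum]
  refine sum_le_sum fun j _ => ?_
  rw [← sum_Ioc_sub (w j) (hℓ j)]
  have h1 : κ * ((x j - ℓ j : ℕ) : ℝ) = ∑ _v ∈ Ioc (ℓ j) (x j), κ := by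
    rw [sum_const, Nat.card_Ioc, nsmul_eq_mul, mul_comm]
  rw [h1]
  exact sum_le_sum fun v hv => h j v (mem_Ioc.1 hv).1 (mem_Ioc.1 hv).2

/-- the constant -/
def C0 (n : ℕ) : ℕ := (n + 1) ^ 2 + n

theorem slack_aux (w : ι → ℕ → ℝ) (hw : ∀ j, Monotone (w j)) (T : ℝ) :
    ∀ (m : ℕ) (ℓ : ι → ℕ) (X Y : Finset (ι → ℕ)), Pair ℓ X Y → Y.card = m → Y.Nonempty →
      (∀ y ∈ Y, ∑ j, w j (y j) ≤ T) → Steep w T ℓ X →
      ∑ x ∈ X, aw (steps ℓ x) m ≤ C0 (Fintype.card ι) * (m : ℝ) ^ 2 := by
  intro m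
  induction m using Nat.strong_induction_on with
  | _ m ih =>
  intro ℓ₀ X₀ Y hP₀ hm hY hT hS₀
  -- compress
  set ℓ := corner Y hY with hℓ
  set X := X₀.image fun x => x ⊔ ℓ with hX
  have hP : Pair ℓ X Y := hP₀.compress hY
  have hm1 : 1 ≤ m := by rw [← hm]; exact card_pos.2 hY
  have hmR : (1 : ℝ) ≤ m := by exact_mod_cast hm1
  have hS : Steep w T ℓ X := by
    intro x hx
    obtain ⟨x₀, hx₀, rfl⟩ := mem_image.1 hx
    obtain ⟨κ, h1, h2, h3⟩ := hS₀ x₀ hx₀
    refine ⟨κ, h1, h2.trans (sum_le_sum fun j _ => hw j ?_), fun j u hj hu => ?_⟩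
    · exact le_sup_left
    · have h4 : u ≤ x₀ j := by
        have h5 : u ≤ x₀ j ⊔ ℓ j := hu
        rcases le_sup_iff.1 h5 with h6 | h6
        · exact h6
        · omega
      exact h3 j u (lt_of_le_of_lt (hP₀.le_corner hY j) hj) h4
  have hne : ∀ x ∈ X, x ≠ ℓ := by
    intro x hx h
    obtain ⟨y, hy⟩ := hY
    exact hP.anti x hx y hy (by rw [h]; exact hP.lY y hy)
  have hred : ∑ x ∈ X₀, aw (steps ℓ₀ x) m ≤ ∑ x ∈ X, aw (steps ℓ x) m := by
    rw [hX, sum_image (hP₀.injOn hY)]
    refine sum_le_sum fun x hx => aw_anti ?_ hm1 ?_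
    · exact steps_pos le_sup_right (hne _ (mem_image_of_mem _ hx))
    · refine sum_le_sum fun j _ => ?_
      have h1 : ℓ₀ j ≤ ℓ j := hP₀.le_corner hY j
      have h2 : (x ⊔ ℓ) j = max (x j) (ℓ j) := rfl
      have h3 := hP₀.lX x hx j
      rw [h2]
      omega
  refine hred.trans ?_
  have hcor : ∀ j, ∃ y ∈ Y, y j = ℓ j := exists_corner hY
  -- the set of large points
  set XS := X.filter fun x => 3 ≤ steps ℓ x ∧ ∀ j, ∃ i, i ≠ j ∧ ℓ i < x i with hXS
  have hsmall : ((X \ XS).card : ℝ) ≤ C0 (Fintype.card ι) := by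
    have h1 : X \ XS ⊆ (X.filter fun x => steps ℓ x ≤ 2) ∪
        X.filter fun x => ∃ j, ∀ i, i ≠ j → x i = ℓ i := by
      intro x hx
      rw [mem_sdiff, hXS, mem_filter] at hx
      obtain ⟨hx1, hx2⟩ := hx
      rw [mem_union, mem_filter, mem_filter]
      by_cases h3 : steps ℓ x ≤ 2
      · exact Or.inl ⟨hx1, h3⟩
      · right
        refine ⟨hx1, ?_⟩
        by_contra hcon
        push Not at hcon
        apply hx2
        refine ⟨hx1, by omega, fun j => ?_⟩
        obtain ⟨i, hi, hne⟩ := hcon j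
        exact ⟨i, hi, lt_of_le_of_ne (hP.lX x hx1 i) (Ne.symm hne)⟩
    have h2 := (card_le_card h1).trans (card_union_le _ _)
    have h3 := card_near ℓ (X.filter fun x => steps ℓ x ≤ 2) fun x hx =>
      ⟨hP.lX x (mem_filter.1 hx).1, (mem_filter.1 hx).2⟩
    have h4 := hP.card_axis (X.filter fun x => ∃ j, ∀ i, i ≠ j → x i = ℓ i) (filter_subset _ _)
      fun x hx => (mem_filter.1 hx).2
    have h5 : (X \ XS).card ≤ C0 (Fintype.card ι) := by
      unfold C0
      omega
    exact_mod_cast h5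
  have hsum1 : ∑ x ∈ X \ XS, aw (steps ℓ x) m ≤ C0 (Fintype.card ι) := by
    calc ∑ x ∈ X \ XS, aw (steps ℓ x) m ≤ ∑ _x ∈ X \ XS, (1 : ℝ) :=
          sum_le_sum fun x _ => aw_le_one _ _
      _ = ((X \ XS).card : ℝ) := by simp
      _ ≤ _ := hsmall
  set W : (ι → ℕ) → ℝ := fun x => ∑ j, (w j (x j) - w j (ℓ j)) with hW
  set s : ℝ := T - ∑ j, w j (ℓ j) with hs
  have hWy : ∀ y ∈ Y, W y ≤ s := by
    intro y hy
    have := hT y hy
    rw [hW, hs]
    simp only [sum_sub_distrib]
    linarith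
  -- the weights of the large points
  set b : (ι → ℕ) → ℝ := fun x => 1 / (((min (steps ℓ x) m : ℕ) : ℝ) - 1) ^ 2 with hb
  have hmain : ∑ x ∈ XS, aw (steps ℓ x) m ≤ C0 (Fintype.card ι) * ((m : ℝ) - 1) * m := by
    rcases XS.eq_empty_or_nonempty with h0 | ⟨x₁, hx₁⟩
    · rw [h0, sum_empty]
      have : (0 : ℝ) ≤ (m : ℝ) - 1 := by linarith
      positivity
    -- every cell below a large point contains points of `Y`
    have hcell : ∀ x ∈ XS, ∀ j v, ℓ j < v → v ≤ x j → (Y.filter fun y => v ≤ y j).Nonempty := by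
      intro x hx j v hv hvx
      obtain ⟨hxX, -, h2⟩ := mem_filter.1 hx
      obtain ⟨i, hij, hi⟩ := h2 j
      obtain ⟨y, hy, h3, -⟩ := hP.cov x hxX i hi
      exact ⟨y, mem_filter.2 ⟨hy, hvx.trans (h3 j (Ne.symm hij))⟩⟩
    have hup : ∀ j v, ℓ j < v → ∑ x ∈ XS.filter (fun x => v ≤ x j), b x ≤
        C0 (Fintype.card ι) * ((m : ℝ) - 1) * ((Y.filter fun y => v ≤ y j).card : ℝ) := by
      intro j v hv
      rcases (XS.filter fun x => v ≤ x j).eq_empty_or_nonempty with h0 | ⟨x₂, hx₂⟩
      · rw [h0, sum_empty]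
        have : (0 : ℝ) ≤ (m : ℝ) - 1 := by linarith
        positivity
      obtain ⟨hx₂a, hx₂b⟩ := mem_filter.1 hx₂
      set z : ι → ℕ := Function.update ℓ j v with hz
      have hℓz : ℓ ≤ z := by
        intro i
        by_cases hi : i = j
        · subst hi; simp [hz, hv.le]
        · simp [hz, hi]
      have hzne : z ≠ ℓ := by
        intro h
        have := congrFun h j
        simp [hz] at this
        omega
      have hzle : ∀ x : ι → ℕ, ℓ ≤ x → (z ≤ x ↔ v ≤ x j) := by
        intro x hx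
        constructor
        · intro h
          have := h j
          simpa [hz] using this
        · intro h i
          by_cases hi : i = j
          · subst hi; simpa [hz] using h
          · simpa [hz, hi] using hx i
      have hYz : (Y.filter (z ≤ ·)) = Y.filter fun y => v ≤ y j :=
        filter_congr fun y hy => hzle y (hP.lY y hy)
      have hcl : (Y.filter (z ≤ ·)).card < Y.card := card_filter_lt hcor hℓz hzne
      have hYzne : (Y.filter (z ≤ ·)).Nonempty := by
        rw [hYz]; exact hcell x₂ hx₂a j v hv hx₂b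
      have hP1 := (hP.sub z hℓz)
      have hsub : XS.filter (fun x => v ≤ x j) ⊆ X.filter (z ≤ ·) := by
        intro x hx
        obtain ⟨h1, h2⟩ := mem_filter.1 hx
        have h3 := (mem_filter.1 h1).1
        exact mem_filter.2 ⟨h3, (hzle x (hP.lX x h3)).2 h2⟩
      have hP2 := hP1.mono hsub
      have hS2 : Steep w T z (XS.filter fun x => v ≤ x j) := by
        intro x hx
        obtain ⟨κ, h1, h2, h3⟩ := hS x (mem_filter.1 (hsub hx)).1
        exact ⟨κ, h1, h2, fun i u hi hu => h3 i u (lt_of_le_of_lt (hℓz i) hi) hu⟩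
      have hIH := ih (Y.filter (z ≤ ·)).card (by rw [← hm]; exact hcl) z _ _ hP2 rfl hYzne
        (fun y hy => hT y (mem_filter.1 hy).1) hS2
      have hm' : 1 ≤ (Y.filter (z ≤ ·)).card := card_pos.2 hYzne
      have hcomp : ∑ x ∈ XS.filter (fun x => v ≤ x j), b x ≤
          ∑ x ∈ XS.filter (fun x => v ≤ x j), aw (steps z x) (Y.filter (z ≤ ·)).card := by
        refine sum_le_sum fun x hx => ?_
        obtain ⟨hxa, hxb⟩ := mem_filter.1 hx
        obtain ⟨hxX, hx3, hxax⟩ := mem_filter.1 hxa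
        have h1 : steps z x < steps ℓ x := by
          unfold steps
          apply sum_lt_sum
          · intro i _
            exact Nat.sub_le_sub_left (hℓz i) _
          · refine ⟨j, mem_univ _, ?_⟩
            simp only [hz, Function.update_self]
            omega
        have h2 : 1 ≤ steps z x := by
          obtain ⟨i, hij, hi⟩ := hxax j
          have h4 : x i - z i ≤ steps z x :=
            single_le_sum (f := fun i => x i - z i) (fun _ _ => Nat.zero_le _) (mem_univ i)
          have h5 : z i = ℓ i := by simp [hz, hij]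
          omega
        have h3 : min (steps z x) (Y.filter (z ≤ ·)).card + 1 ≤ min (steps ℓ x) m := by
          have := hcl
          omega
        have h4 : 1 ≤ min (steps z x) (Y.filter (z ≤ ·)).card := le_min h2 hm'
        simp only [hb]
        unfold aw
        have h5 : ((min (steps z x) (Y.filter (z ≤ ·)).card : ℕ) : ℝ) + 1 ≤
            ((min (steps ℓ x) m : ℕ) : ℝ) := by exact_mod_cast h3
        have h6 : (1 : ℝ) ≤ ((min (steps z x) (Y.filter (z ≤ ·)).card : ℕ) : ℝ) := by
          exact_mod_cast h4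
        apply one_div_le_one_div_of_le (by positivity)
        have h7 : ((min (steps z x) (Y.filter (z ≤ ·)).card : ℕ) : ℝ) ≤
            ((min (steps ℓ x) m : ℕ) : ℝ) - 1 := by linarith
        gcongr
      refine hcomp.trans (hIH.trans ?_)
      rw [← hYz]
      have h8 : ((Y.filter (z ≤ ·)).card : ℝ) ≤ (m : ℝ) - 1 := by
        have : (Y.filter (z ≤ ·)).card + 1 ≤ m := by omega
        have h9 : ((Y.filter (z ≤ ·)).card : ℝ) + 1 ≤ m := by exact_mod_cast this
        linarith
      have h10 : (0 : ℝ) ≤ ((Y.filter (z ≤ ·)).card : ℝ) := Nat.cast_nonneg _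
      have h11 : (0 : ℝ) ≤ (C0 (Fintype.card ι) : ℝ) := Nat.cast_nonneg _
      calc (C0 (Fintype.card ι) : ℝ) * ((Y.filter (z ≤ ·)).card : ℝ) ^ 2
          = C0 (Fintype.card ι) * ((Y.filter (z ≤ ·)).card : ℝ) *
              ((Y.filter (z ≤ ·)).card : ℝ) := by ring
        _ ≤ C0 (Fintype.card ι) * ((m : ℝ) - 1) * ((Y.filter (z ≤ ·)).card : ℝ) := by
            gcongr
    -- a common bound for the coordinates
    set N : ℕ := ∑ x ∈ X ∪ Y, ∑ j, x j with hN
    have hNle : ∀ x ∈ X ∪ Y, ∀ j, x j ≤ N := by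
      intro x hx j
      calc x j ≤ ∑ j, x j := single_le_sum (f := fun j => x j) (fun _ _ => Nat.zero_le _)
            (mem_univ j)
        _ ≤ N := single_le_sum (f := fun x : ι → ℕ => ∑ j, x j) (fun _ _ => Nat.zero_le _) hx
    have hWeq : ∀ x ∈ X ∪ Y, W x = ∑ j, ∑ v ∈ Ioc (ℓ j) N,
        if v ≤ x j then w j v - w j (v - 1) else 0 := by
      intro x hx
      have hℓx : ℓ ≤ x := by
        rcases mem_union.1 hx with h | h
        · exact hP.lX x h
        · exact hP.lY x h
      refine sum_congr rfl fun j _ => ?_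
      rw [← sum_Ioc_sub (w j) (hℓx j), ← sum_filter]
      refine sum_congr ?_ fun _ _ => rfl
      ext v
      rw [mem_Ioc, mem_filter, mem_Ioc]
      have := hNle x hx j
      omega
    have hkey : ∑ x ∈ XS, b x * W x ≤ C0 (Fintype.card ι) * ((m : ℝ) - 1) * ∑ y ∈ Y, W y := by
      have e1 : ∑ x ∈ XS, b x * W x = ∑ j, ∑ v ∈ Ioc (ℓ j) N, (w j v - w j (v - 1)) *
          ∑ x ∈ XS.filter (fun x => v ≤ x j), b x := by
        have : ∀ x ∈ XS, b x * W x = ∑ j, ∑ v ∈ Ioc (ℓ j) N,
            if v ≤ x j then (w j v - w j (v - 1)) * b x else 0 := by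
          intro x hx
          rw [hWeq x (mem_union_left _ (mem_filter.1 hx).1), mul_sum]
          refine sum_congr rfl fun j _ => ?_
          rw [mul_sum]
          refine sum_congr rfl fun v _ => ?_
          split_ifs
          · ring
          · ring
        rw [sum_congr rfl this, sum_comm]
        refine sum_congr rfl fun j _ => ?_
        rw [sum_comm]
        refine sum_congr rfl fun v _ => ?_
        rw [mul_sum, ← sum_filter (s := XS)]
      have e2 : ∑ y ∈ Y, W y = ∑ j, ∑ v ∈ Ioc (ℓ j) N, (w j v - w j (v - 1)) *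
          ((Y.filter fun y => v ≤ y j).card : ℝ) := by
        rw [sum_congr rfl fun y hy => hWeq y (mem_union_right _ hy), sum_comm]
        refine sum_congr rfl fun j _ => ?_
        rw [sum_comm]
        refine sum_congr rfl fun v _ => ?_
        rw [← sum_filter, sum_const, nsmul_eq_mul, mul_comm]
      rw [e1, e2, mul_sum]
      refine sum_le_sum fun j _ => ?_
      rw [mul_sum]
      refine sum_le_sum fun v hv => ?_
      have h1 : 0 ≤ w j v - w j (v - 1) := sub_nonneg.2 (hw j (Nat.sub_le _ _))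
      have h2 := mul_le_mul_of_nonneg_left (hup j v (mem_Ioc.1 hv).1) h1
      refine h2.trans (le_of_eq ?_)
      ring
    -- compare
    have hpt : ∀ x ∈ XS, 0 < s ∧ aw (steps ℓ x) m * s ≤ b x * W x := by
      intro x hx
      obtain ⟨hxX, hx3, hxax⟩ := mem_filter.1 hx
      obtain ⟨κ, hκ, h1, h2⟩ := hS x hxX
      have hℓx := hP.lX x hxX
      -- the bound on the step
      have hstep : κ * ((steps ℓ x : ℝ) - 1) ≤ s := by
        obtain ⟨j, hj⟩ : ∃ j, ℓ j < x j := by
          by_contra hcon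
          push Not at hcon
          exact hne x hxX (le_antisymm hcon hℓx)
        obtain ⟨y, hy, h3, h4⟩ := hP.cov x hxX j hj
        set x' : ι → ℕ := Function.update x j (x j - 1) with hx'
        have hx'y : x' ≤ y := by
          intro i
          by_cases hi : i = j
          · subst hi; simp [hx']; omega
          · simpa [hx', hi] using h3 i hi
        have hℓx' : ℓ ≤ x' := by
          intro i
          by_cases hi : i = j
          · subst hi; simp [hx']; omega
          · simpa [hx', hi] using hℓx i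
        have hst : steps ℓ x' + 1 = steps ℓ x := by
          unfold steps
          rw [← Finset.add_sum_erase univ (fun i => x i - ℓ i) (mem_univ j),
            ← Finset.add_sum_erase univ (fun i => x' i - ℓ i) (mem_univ j)]
          have h5 : ∑ i ∈ univ.erase j, (x' i - ℓ i) = ∑ i ∈ univ.erase j, (x i - ℓ i) := by
            refine sum_congr rfl fun i hi => ?_
            simp [hx', (mem_erase.1 hi).1]
          rw [h5]
          simp only [hx', Function.update_self]
          omega
        have h6 : κ * steps ℓ x' ≤ W x' := by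
          refine steep_total hℓx' fun i u hi hu => h2 i u hi (hu.trans ?_)
          by_cases hij : i = j
          · subst hij; simp [hx']
          · simp [hx', hij]
        have h7 : W x' ≤ W y := sum_le_sum fun i _ => by
          have := hw i (hx'y i)
          linarith
        have h8 := hWy y hy
        have h9 : (steps ℓ x : ℝ) - 1 = steps ℓ x' := by
          rw [← hst]; push_cast; ring
        rw [h9]
        linarith
      have h3R : (3 : ℝ) ≤ (steps ℓ x : ℝ) := by exact_mod_cast hx3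
      have hs0 : 0 < s := by nlinarith
      refine ⟨hs0, ?_⟩
      have hWx : s - κ ≤ W x := by
        rw [hW, hs]
        simp only [sum_sub_distrib]
        linarith
      set p : ℝ := (steps ℓ x : ℝ) with hp
      have hκs : κ ≤ s / (p - 1) := by
        rw [le_div_iff₀ (by linarith)]
        exact hstep
      have hWx2 : s * ((p - 2) / (p - 1)) ≤ W x := by
        have h10 : s * ((p - 2) / (p - 1)) = s - s / (p - 1) := by
          have : p - 1 ≠ 0 := by linarith
          field_simp
          ring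
        rw [h10]
        linarith
      -- the minimum
      have hmge : 2 ≤ m := by
        obtain ⟨i, hi⟩ : ∃ i, ℓ i < x i := by
          by_contra hcon
          push Not at hcon
          exact hne x hxX (le_antisymm hcon hℓx)
        have h11 := hcell x hx i (x i) hi le_rfl
        have hupd : (Y.filter fun y => x i ≤ y i).card < Y.card := by
          have hz : ℓ ≤ Function.update ℓ i (x i) := by
            intro k
            by_cases hk : k = i
            · subst hk; simp [hi.le]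
            · simp [hk]
          have hzne : Function.update ℓ i (x i) ≠ ℓ := by
            intro h
            have := congrFun h i
            simp at this
            omega
          refine lt_of_le_of_lt (card_le_card ?_) (card_filter_lt hcor hz hzne)
          intro y hy
          obtain ⟨hy1, hy2⟩ := mem_filter.1 hy
          refine mem_filter.2 ⟨hy1, fun k => ?_⟩
          by_cases hk : k = i
          · subst hk; simpa using hy2
          · simpa [hk] using hP.lY y hy1 k
        have := card_pos.2 h11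
        omega
      set k : ℕ := min (steps ℓ x) m with hk
      have hk2 : 2 ≤ k := le_min (by omega) hmge
      have hk2R : (2 : ℝ) ≤ (k : ℝ) := by exact_mod_cast hk2
      have hkp : (k : ℝ) ≤ p := by
        rw [hp]; exact_mod_cast min_le_left _ _
      have hfrac : ((k : ℝ) - 1) ^ 2 / (k : ℝ) ^ 2 ≤ (p - 2) / (p - 1) := by
        rw [div_le_div_iff₀ (by positivity) (by linarith)]
        have hp3 : 3 ≤ p := h3R
        nlinarith [mul_nonneg (sub_nonneg.2 hkp) (by linarith : (0 : ℝ) ≤ k - 2),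
          mul_nonneg (sub_nonneg.2 hkp) (by linarith : (0 : ℝ) ≤ (k : ℝ)),
          mul_nonneg (by linarith : (0 : ℝ) ≤ p - 3) (by linarith : (0 : ℝ) ≤ (k : ℝ) - 2),
          mul_nonneg (mul_nonneg (sub_nonneg.2 hkp) (by linarith : (0 : ℝ) ≤ (k : ℝ) - 2))
            (by linarith : (0 : ℝ) ≤ (k : ℝ))]
      have hawk : aw (steps ℓ x) m = 1 / (k : ℝ) ^ 2 := rfl
      have hbk : b x = 1 / ((k : ℝ) - 1) ^ 2 := rfl
      rw [hawk, hbk]
      have hk1 : (0 : ℝ) < (k : ℝ) - 1 := by linarith
      have h12 : 1 / (k : ℝ) ^ 2 * s = 1 / ((k : ℝ) - 1) ^ 2 *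
          (s * (((k : ℝ) - 1) ^ 2 / (k : ℝ) ^ 2)) := by
        field_simp
      rw [h12]
      refine mul_le_mul_of_nonneg_left ?_ (by positivity)
      exact (mul_le_mul_of_nonneg_left hfrac hs0.le).trans hWx2
    have hs0 : 0 < s := (hpt x₁ hx₁).1
    have h1 : (∑ x ∈ XS, aw (steps ℓ x) m) * s ≤
        C0 (Fintype.card ι) * ((m : ℝ) - 1) * m * s := by
      rw [sum_mul]
      refine (sum_le_sum fun x hx => (hpt x hx).2).trans (hkey.trans ?_)
      have h2 : ∑ y ∈ Y, W y ≤ m * s := by
        calc ∑ y ∈ Y, W y ≤ ∑ _y ∈ Y, s := sum_le_sum hWy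
          _ = m * s := by rw [sum_const, nsmul_eq_mul, hm]
      have h3 : (0 : ℝ) ≤ C0 (Fintype.card ι) * ((m : ℝ) - 1) :=
        mul_nonneg (Nat.cast_nonneg _) (by linarith)
      calc C0 (Fintype.card ι) * ((m : ℝ) - 1) * ∑ y ∈ Y, W y
          ≤ C0 (Fintype.card ι) * ((m : ℝ) - 1) * (m * s) := mul_le_mul_of_nonneg_left h2 h3
        _ = _ := by ring
    exact le_of_mul_le_mul_right h1 hs0
  have hsplit : ∑ x ∈ X, aw (steps ℓ x) m =
      ∑ x ∈ X \ XS, aw (steps ℓ x) m + ∑ x ∈ XS, aw (steps ℓ x) m :=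
    (sum_sdiff (filter_subset _ _)).symm
  rw [hsplit]
  have hC : (0 : ℝ) ≤ (C0 (Fintype.card ι) : ℝ) := Nat.cast_nonneg _
  nlinarith

/-- The slack lemma. -/
theorem slack (w : ι → ℕ → ℝ) (hw : ∀ j, Monotone (w j)) (T : ℝ) (ℓ : ι → ℕ)
    (X Y : Finset (ι → ℕ)) (hP : Pair ℓ X Y) (hY : Y.Nonempty)
    (hT : ∀ y ∈ Y, ∑ j, w j (y j) ≤ T) (hS : Steep w T ℓ X) :
    X.card ≤ C0 (Fintype.card ι) * Y.card ^ 4 := by
  have h1 := slack_aux w hw T Y.card ℓ X Y hP rfl hY hT hS
  have hm1 : 1 ≤ Y.card := card_pos.2 hY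
  have hmR : (1 : ℝ) ≤ Y.card := by exact_mod_cast hm1
  have h2 : (X.card : ℝ) * (1 / (Y.card : ℝ) ^ 2) ≤ ∑ x ∈ X, aw (steps ℓ x) Y.card := by
    rw [← nsmul_eq_mul, ← sum_const]
    refine sum_le_sum fun x hx => ?_
    unfold aw
    have hne : x ≠ ℓ := by
      rintro rfl
      obtain ⟨y, hy⟩ := hY
      exact hP.anti _ hx y hy (hP.lY y hy)
    have h3 : 1 ≤ min (steps ℓ x) Y.card := le_min (steps_pos (hP.lX x hx) hne) hm1
    have h4 : (1 : ℝ) ≤ ((min (steps ℓ x) Y.card : ℕ) : ℝ) := by exact_mod_cast h3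
    have h5 : ((min (steps ℓ x) Y.card : ℕ) : ℝ) ≤ Y.card := by exact_mod_cast min_le_right _ _
    apply one_div_le_one_div_of_le (by positivity)
    gcongr
  have h3 : (X.card : ℝ) ≤ C0 (Fintype.card ι) * (Y.card : ℝ) ^ 4 := by
    have h4 := h2.trans h1
    rw [mul_one_div, div_le_iff₀ (by positivity)] at h4
    calc (X.card : ℝ) ≤ _ := h4
      _ = _ := by ring
  exact_mod_cast h3

end Pool.Agent.R559.Dual
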